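import Mathlib

/-! The perpetuity law of the Collatz walk: recursion, limit and first bounds.
`Hk a b K μ` is the proportion of the parity words of length `K` whose weighted sum exceeds `μ`. -/

set_option autoImplicit false

namespace Pool.Agent.U931.PL

open Finset Filter Topology

/-- proportion of the words of length `K` with weighted sum `> μ` -/
noncomputable def Hk (a b : ℝ) : ℕ → ℝ → ℝ
  | 0, μ => if μ < 0 then 1 else 0
  | K + 1, μ => (Hk a b K (2 * (μ - a)) + Hk a b K (2 * (μ - b) / 3)) / 2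

variable {a b : ℝ}

theorem Hk_succ (a b : ℝ) (K : ℕ) (μ : ℝ) :
    Hk a b (K + 1) μ = (Hk a b K (2 * (μ - a)) + Hk a b K (2 * (μ - b) / 3)) / 2 := rfl

theorem Hk_nonneg (a b : ℝ) (K : ℕ) : ∀ μ, 0 ≤ Hk a b K μ := by
  induction K with
  | zero => intro μ; unfold Hk; split_ifs <;> norm_num
  | succ K ih =>
    intro μ; rw [Hk_succ]
    have := ih (2 * (μ - a)); have := ih (2 * (μ - b) / 3); linarith

theorem Hk_le_one (a b : ℝ) (K : ℕ) : ∀ μ, Hk a b K μ ≤ 1 := by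
  induction K with
  | zero => intro μ; unfold Hk; split_ifs <;> norm_num
  | succ K ih =>
    intro μ; rw [Hk_succ]
    have := ih (2 * (μ - a)); have := ih (2 * (μ - b) / 3); linarith

theorem Hk_anti (a b : ℝ) (K : ℕ) : Antitone (Hk a b K) := by
  induction K with
  | zero =>
    intro x y h; unfold Hk
    split_ifs with h1 h2
    · exact le_rfl
    · exact absurd (lt_of_le_of_lt h h1) h2
    · exact zero_le_one
    · exact le_rfl
  | succ K ih =>
    intro x y h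
    have e1 := ih (show 2 * (x - a) ≤ 2 * (y - a) by linarith)
    have e2 := ih (show 2 * (x - b) / 3 ≤ 2 * (y - b) / 3 by linarith)
    rw [Hk_succ, Hk_succ]; linarith

theorem Hk_neg (ha : 0 ≤ a) (hb : 0 ≤ b) (K : ℕ) : ∀ μ, μ < 0 → Hk a b K μ = 1 := by
  induction K with
  | zero => intro μ h; unfold Hk; rw [if_pos h]
  | succ K ih =>
    intro μ h
    rw [Hk_succ, ih _ (by linarith), ih _ (by linarith)]; norm_num

theorem Hk_mono (ha : 0 ≤ a) (hb : 0 ≤ b) (K : ℕ) : ∀ μ, Hk a b K μ ≤ Hk a b (K + 1) μ := by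
  induction K with
  | zero =>
    intro μ
    rcases lt_or_ge μ 0 with h | h
    · rw [Hk_neg ha hb 1 μ h]; exact Hk_le_one a b 0 μ
    · have : Hk a b 0 μ = 0 := by unfold Hk; rw [if_neg (not_lt.2 h)]
      rw [this]; exact Hk_nonneg a b 1 μ
  | succ K ih =>
    intro μ
    rw [Hk_succ a b (K + 1), Hk_succ a b K]
    have := ih (2 * (μ - a)); have := ih (2 * (μ - b) / 3); linarith

theorem Hk_monotone (ha : 0 ≤ a) (hb : 0 ≤ b) (μ : ℝ) : Monotone fun K => Hk a b K μ :=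
  monotone_nat_of_le_succ fun K => Hk_mono ha hb K μ

/-- the constant of the bound -/
noncomputable def Cc (a b : ℝ) : ℝ := (3 * a + 3 * b + 1) * (a + b + 1) + (a + 3 * b + 1)

theorem Cc_pos (ha : 0 ≤ a) (hb : 0 ≤ b) : 0 < Cc a b := by unfold Cc; positivity

/-- a supersolution -/
theorem Hk_le (ha : 0 ≤ a) (hb : 0 ≤ b) (K : ℕ) :
    ∀ μ, 0 ≤ μ → Hk a b K μ ≤ Cc a b / (μ + (a + 3 * b + 1)) := by
  have hC := Cc_pos ha hb
  set μ0 := (3 * a + 3 * b + 1) * (a + b + 1) with hμ0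
  have hμ0a : a ≤ μ0 := by rw [hμ0]; nlinarith [mul_nonneg ha ha, mul_nonneg ha hb, mul_nonneg hb hb]
  have hμ0b : b ≤ μ0 := by rw [hμ0]; nlinarith [mul_nonneg ha ha, mul_nonneg ha hb, mul_nonneg hb hb]
  induction K with
  | zero =>
    intro μ h
    have : Hk a b 0 μ = 0 := by unfold Hk; rw [if_neg (not_lt.2 h)]
    rw [this]; positivity
  | succ K ih =>
    intro μ h
    rcases lt_or_ge μ μ0 with h1 | h1
    · refine (Hk_le_one a b _ _).trans ?_
      rw [le_div_iff₀ (by positivity)]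
      unfold Cc
      rw [← hμ0]; linarith
    · have e1 := ih (2 * (μ - a)) (by linarith)
      have e2 := ih (2 * (μ - b) / 3) (by linarith)
      rw [Hk_succ]
      have p1 : 0 < 2 * (μ - a) + (a + 3 * b + 1) := by linarith
      have p2 : 0 < 2 * (μ - b) / 3 + (a + 3 * b + 1) := by linarith
      have p3 : 0 < μ + (a + 3 * b + 1) := by linarith
      have key : (1 / (2 * (μ - a) + (a + 3 * b + 1)) + 1 / (2 * (μ - b) / 3 + (a + 3 * b + 1))) / 2
          ≤ 1 / (μ + (a + 3 * b + 1)) := by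
        rw [div_add_div _ _ p1.ne' p2.ne', div_div, div_le_div_iff₀ (by positivity) p3]
        have h2 : μ0 ≤ μ + (a + 3 * b + 1) := by linarith
        rw [hμ0] at h2
        nlinarith
      calc (Hk a b K (2 * (μ - a)) + Hk a b K (2 * (μ - b) / 3)) / 2
          ≤ (Cc a b / (2 * (μ - a) + (a + 3 * b + 1)) + Cc a b / (2 * (μ - b) / 3 + (a + 3 * b + 1))) / 2 := by
            linarith
        _ = Cc a b * ((1 / (2 * (μ - a) + (a + 3 * b + 1)) + 1 / (2 * (μ - b) / 3 + (a + 3 * b + 1))) / 2) := by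
            ring
        _ ≤ Cc a b * (1 / (μ + (a + 3 * b + 1))) := mul_le_mul_of_nonneg_left key hC.le
        _ = _ := by ring

/-- the limit of the proportions -/
noncomputable def Hi (a b : ℝ) (μ : ℝ) : ℝ := ⨆ K, Hk a b K μ

theorem Hk_tendsto (ha : 0 ≤ a) (hb : 0 ≤ b) (μ : ℝ) : Tendsto (fun K => Hk a b K μ) atTop (𝓝 (Hi a b μ)) :=
  tendsto_atTop_ciSup (Hk_monotone ha hb μ) ⟨1, by rintro _ ⟨K, rfl⟩; exact Hk_le_one a b K μ⟩

theorem Hi_nonneg (ha : 0 ≤ a) (hb : 0 ≤ b) (μ : ℝ) : 0 ≤ Hi a b μ :=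
  ge_of_tendsto' (Hk_tendsto ha hb μ) fun K => Hk_nonneg a b K μ
theorem Hi_le_one (ha : 0 ≤ a) (hb : 0 ≤ b) (μ : ℝ) : Hi a b μ ≤ 1 :=
  le_of_tendsto' (Hk_tendsto ha hb μ) fun K => Hk_le_one a b K μ
theorem Hi_anti (ha : 0 ≤ a) (hb : 0 ≤ b) : Antitone (Hi a b) := fun x y h =>
  le_of_tendsto_of_tendsto' (Hk_tendsto ha hb y) (Hk_tendsto ha hb x) fun K => Hk_anti a b K h
theorem Hi_neg (ha : 0 ≤ a) (hb : 0 ≤ b) {μ : ℝ} (h : μ < 0) : Hi a b μ = 1 :=
  tendsto_nhds_unique (Hk_tendsto ha hb μ) (by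
    have : (fun K => Hk a b K μ) = fun _ => (1 : ℝ) := funext fun K => Hk_neg ha hb K μ h
    rw [this]; exact tendsto_const_nhds)
theorem Hi_rec (ha : 0 ≤ a) (hb : 0 ≤ b) (μ : ℝ) :
    Hi a b μ = (Hi a b (2 * (μ - a)) + Hi a b (2 * (μ - b) / 3)) / 2 := by
  refine tendsto_nhds_unique ((Hk_tendsto ha hb μ).comp (tendsto_add_atTop_nat 1)) ?_
  exact ((Hk_tendsto ha hb (2 * (μ - a))).add (Hk_tendsto ha hb (2 * (μ - b) / 3))).div_const 2
theorem Hi_le (ha : 0 ≤ a) (hb : 0 ≤ b) {μ : ℝ} (h : 0 ≤ μ) :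
    Hi a b μ ≤ Cc a b / (μ + (a + 3 * b + 1)) :=
  le_of_tendsto' (Hk_tendsto ha hb μ) fun K => Hk_le ha hb K μ h

theorem mul_Hi_le (ha : 0 ≤ a) (hb : 0 ≤ b) {μ : ℝ} (h : 0 ≤ μ) : μ * Hi a b μ ≤ Cc a b := by
  have h1 := Hi_le ha hb h
  have hC := Cc_pos ha hb
  have p : 0 < μ + (a + 3 * b + 1) := by linarith
  calc μ * Hi a b μ ≤ μ * (Cc a b / (μ + (a + 3 * b + 1))) := mul_le_mul_of_nonneg_left h1 h
    _ = Cc a b * (μ / (μ + (a + 3 * b + 1))) := by ring
    _ ≤ Cc a b * 1 := by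
        apply mul_le_mul_of_nonneg_left _ hC.le
        rw [div_le_one p]; linarith
    _ = _ := mul_one _

/-- the tail at a shifted argument -/
theorem Hi_shift (ha : 0 ≤ a) (hb : 0 ≤ b) {c x : ℝ} (hc : 0 ≤ c) (hx : 0 < x) :
    x * Hi a b (x - c) ≤ 2 * Cc a b + 2 * c := by
  have hC := Cc_pos ha hb
  have h1 := Hi_le_one ha hb (x - c)
  have h0 := Hi_nonneg ha hb (x - c)
  rcases le_or_gt x (2 * c) with h | h
  · nlinarith
  · have h2 := mul_Hi_le ha hb (show 0 ≤ x - c by linarith)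
    nlinarith

theorem Hi_tendsto_zero (ha : 0 ≤ a) (hb : 0 ≤ b) : Tendsto (Hi a b) atTop (𝓝 0) := by
  have h1 : Tendsto (fun μ : ℝ => Cc a b / (μ + (a + 3 * b + 1))) atTop (𝓝 0) :=
    tendsto_const_nhds.div_atTop (tendsto_atTop_add_const_right _ _ tendsto_id)
  refine squeeze_zero' (Eventually.of_forall fun μ => Hi_nonneg ha hb μ) ?_ h1
  filter_upwards [eventually_ge_atTop 0] with μ hμ
  exact Hi_le ha hb hμ

end Pool.Agent.U931.PL
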