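import Pool.Agent.U931.PL1

/-! The perpetuity law has no atoms. -/

set_option autoImplicit false

namespace Pool.Agent.U931.PL

open Finset Filter Topology Set

/-- left and right limits commute with increasing affine maps -/
theorem leftLim_comp {F : ℝ → ℝ} (hF : Monotone F) {c : ℝ} (hc : 0 < c) (d x : ℝ) :
    Tendsto (fun y => F (c * y + d)) (𝓝[<] x) (𝓝 (Function.leftLim F (c * x + d))) := by
  refine (hF.tendsto_leftLim _).comp ?_
  refine tendsto_nhdsWithin_iff.2 ⟨?_, ?_⟩
  · exact ((by fun_prop : Continuous fun y : ℝ => c * y + d).tendsto x).mono_left nhdsWithin_le_nhds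
  · filter_upwards [self_mem_nhdsWithin] with y hy
    have : y < x := hy
    show c * y + d < c * x + d
    nlinarith

theorem rightLim_comp {F : ℝ → ℝ} (hF : Monotone F) {c : ℝ} (hc : 0 < c) (d x : ℝ) :
    Tendsto (fun y => F (c * y + d)) (𝓝[>] x) (𝓝 (Function.rightLim F (c * x + d))) := by
  refine (hF.tendsto_rightLim _).comp ?_
  refine tendsto_nhdsWithin_iff.2 ⟨?_, ?_⟩
  · exact ((by fun_prop : Continuous fun y : ℝ => c * y + d).tendsto x).mono_left nhdsWithin_le_nhds
  · filter_upwards [self_mem_nhdsWithin] with y hy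
    have : x < y := hy
    show c * x + d < c * y + d
    nlinarith

/-- the jump -/
noncomputable def jump (F : ℝ → ℝ) (x : ℝ) : ℝ := Function.rightLim F x - Function.leftLim F x

theorem jump_nonneg {F : ℝ → ℝ} (hF : Monotone F) (x : ℝ) : 0 ≤ jump F x :=
  sub_nonneg.2 (hF.leftLim_le_rightLim le_rfl)

/-- the sum of the jumps left of `y` is at most `F (y-)` -/
theorem sum_jump {F : ℝ → ℝ} (hF : Monotone F) (h0 : ∀ x, 0 ≤ F x) (s : Finset ℝ) :
    ∀ y, (∀ x ∈ s, x < y) → ∑ x ∈ s, jump F x ≤ Function.leftLim F y := by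
  induction s using Finset.induction_on_max with
  | empty =>
    intro y _
    rw [sum_empty]
    exact ge_of_tendsto (hF.tendsto_leftLim y) (Eventually.of_forall fun x => h0 x)
  | insert m s hm ih =>
    intro y hy
    rw [sum_insert (fun h => lt_irrefl _ (hm m h))]
    have h1 := ih m hm
    have h2 : Function.rightLim F m ≤ Function.leftLim F y :=
      hF.rightLim_le_leftLim (hy m (mem_insert_self _ _))
    unfold jump at h1 ⊢
    linarith

theorem sum_jump_le {F : ℝ → ℝ} (hF : Monotone F) (h0 : ∀ x, 0 ≤ F x) (h1 : ∀ x, F x ≤ 1) (s : Finset ℝ) :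
    ∑ x ∈ s, jump F x ≤ 1 := by
  obtain ⟨y, hy⟩ : ∃ y, ∀ x ∈ s, x < y := by
    rcases s.eq_empty_or_nonempty with rfl | hs
    · exact ⟨0, by simp⟩
    · exact ⟨s.max' hs + 1, fun x hx => by have := s.le_max' x hx; linarith⟩
  refine (sum_jump hF h0 s y hy).trans ?_
  exact le_of_tendsto (hF.tendsto_leftLim y) (Eventually.of_forall fun x => h1 x)

theorem finite_jump {F : ℝ → ℝ} (hF : Monotone F) (h0 : ∀ x, 0 ≤ F x) (h1 : ∀ x, F x ≤ 1) {ε : ℝ}
    (hε : 0 < ε) : {x | ε ≤ jump F x}.Finite := by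
  by_contra hinf
  obtain ⟨n, hn⟩ := exists_nat_gt (1 / ε)
  obtain ⟨t, ht, hcard⟩ := Set.Infinite.exists_subset_card_eq hinf n
  have h2 := sum_jump_le hF h0 h1 t
  have h3 : (n : ℝ) * ε ≤ ∑ x ∈ t, jump F x := by
    rw [← hcard, ← nsmul_eq_mul, ← sum_const]
    exact sum_le_sum fun x hx => ht hx
  rw [div_lt_iff₀ hε] at hn
  linarith

theorem jump_rec {F : ℝ → ℝ} (hF : Monotone F) {a b : ℝ}
    (hrec : ∀ x, F x = (F (2 * (x - a)) + F (2 * (x - b) / 3)) / 2) (x : ℝ) :
    jump F x = (jump F (2 * (x - a)) + jump F (2 * (x - b) / 3)) / 2 := by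
  have e1 : ∀ y : ℝ, 2 * (y - a) = 2 * y + (-2 * a) := fun y => by ring
  have e2 : ∀ y : ℝ, 2 * (y - b) / 3 = 2 / 3 * y + (-2 * b / 3) := fun y => by ring
  have hL : Function.leftLim F x
      = (Function.leftLim F (2 * (x - a)) + Function.leftLim F (2 * (x - b) / 3)) / 2 := by
    refine tendsto_nhds_unique (hF.tendsto_leftLim x) ?_
    have h1 := leftLim_comp hF (show (0 : ℝ) < 2 by norm_num) (-2 * a) x
    have h2 := leftLim_comp hF (show (0 : ℝ) < 2 / 3 by norm_num) (-2 * b / 3) x
    rw [e1, e2]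
    refine ((h1.add h2).div_const 2).congr fun y => ?_
    rw [hrec y, e1, e2]
  have hR : Function.rightLim F x
      = (Function.rightLim F (2 * (x - a)) + Function.rightLim F (2 * (x - b) / 3)) / 2 := by
    refine tendsto_nhds_unique (hF.tendsto_rightLim x) ?_
    have h1 := rightLim_comp hF (show (0 : ℝ) < 2 by norm_num) (-2 * a) x
    have h2 := rightLim_comp hF (show (0 : ℝ) < 2 / 3 by norm_num) (-2 * b / 3) x
    rw [e1, e2]
    refine ((h1.add h2).div_const 2).congr fun y => ?_
    rw [hrec y, e1, e2]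
  unfold jump
  rw [hL, hR]; ring

/-- NO ATOMS -/
theorem no_atoms {F : ℝ → ℝ} (hF : Monotone F) (h0 : ∀ x, 0 ≤ F x) (h1 : ∀ x, F x ≤ 1) {a b : ℝ}
    (hab : a + b ≠ 0) (hrec : ∀ x, F x = (F (2 * (x - a)) + F (2 * (x - b) / 3)) / 2) :
    Continuous F := by
  have hj : ∀ x, jump F x = 0 := by
    by_contra hcon
    push Not at hcon
    obtain ⟨x0, hx0⟩ := hcon
    have hp : 0 < jump F x0 := lt_of_le_of_ne (jump_nonneg hF x0) (Ne.symm hx0)
    have hfin := finite_jump hF h0 h1 hp
    obtain ⟨m, hm, hmax⟩ := Set.exists_max_image _ (jump F) hfin ⟨x0, le_refl (jump F x0)⟩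
    have hm0 : jump F x0 ≤ jump F m := hmax x0 (le_refl (jump F x0))
    have hM : ∀ x, jump F x ≤ jump F m := by
      intro x
      rcases le_or_gt (jump F x0) (jump F x) with h | h
      · exact hmax x h
      · exact h.le.trans hm0
    set A : Set ℝ := {x | jump F x = jump F m} with hA
    have hAfin : A.Finite := hfin.subset fun x hx => by
      have : jump F x = jump F m := hx
      show jump F x0 ≤ jump F x
      rw [this]; exact hm0
    have hAne : A.Nonempty := ⟨m, rfl⟩
    have hcl : ∀ x ∈ A, 2 * (x - a) ∈ A ∧ 2 * (x - b) / 3 ∈ A := by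
      intro x hx
      have h2 : jump F x = jump F m := hx
      have h3 := jump_rec hF hrec x
      have h4 := hM (2 * (x - a))
      have h5 := hM (2 * (x - b) / 3)
      constructor
      · show jump F _ = jump F m
        linarith
      · show jump F _ = jump F m
        linarith
    obtain ⟨p, hpA, hpmax⟩ := Set.exists_max_image A id hAfin hAne
    obtain ⟨q, hqA, hqmin⟩ := Set.exists_min_image A id hAfin hAne
    have g1 : 2 * (p - a) ≤ p := hpmax _ (hcl p hpA).1
    have g2 : q ≤ 2 * (q - a) := hqmin _ (hcl q hqA).1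
    have g3 : q ≤ p := hpmax q hqA
    have g4 : p ≤ 2 * a := by linarith
    have g5 : 2 * a ≤ q := by linarith
    have g6 : q ≤ 2 * (p - b) / 3 := hqmin _ (hcl p hpA).2
    have g7 : 2 * (p - b) / 3 ≤ p := hpmax _ (hcl p hpA).2
    apply hab
    linarith
  rw [continuous_iff_continuousAt]
  intro x
  rw [hF.continuousAt_iff_leftLim_eq_rightLim]
  have := hj x
  unfold jump at this
  linarith

variable {a b : ℝ}

theorem Hi_cont (ha : 0 ≤ a) (hb : 0 ≤ b) (hab : 0 < a + b) : Continuous (Hi a b) := by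
  have h := no_atoms (F := fun x => 1 - Hi a b x)
    (fun x y h => by have := Hi_anti ha hb h; simp only; linarith)
    (fun x => by have := Hi_le_one ha hb x; linarith)
    (fun x => by have := Hi_nonneg ha hb x; linarith) (a := a) (b := b) hab.ne'
    (fun x => by rw [Hi_rec ha hb x]; ring)
  have h2 : Hi a b = fun x => 1 - (1 - Hi a b x) := by funext x; ring
  rw [h2]
  exact continuous_const.sub h

end Pool.Agent.U931.PL
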