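import Pool.Agent.U931.RT1

/-! A renewal theorem for the tilted Collatz walk: conclusion. -/

set_option autoImplicit false

namespace Pool.Agent.U931.RT

open MeasureTheory Filter Topology Set
open Pool.Agent.W36.SL (l1 l2 l1_pos l2_pos exp_l1 exp_l2 D D1 al shift_Ioi D_ne D_diff D1_ne D1_diff
  D1_zero D1_ne_zero one_add_ne al_pos D_zero al_eq)

variable {h ψ : ℝ → ℝ} {B δ : ℝ}

/-- `e^w h(w)` -/
noncomputable def eh (h : ℝ → ℝ) (w : ℝ) : ℝ := Real.exp w * h w

theorem eh_meas (H : Ren h ψ B δ) : Measurable (eh h) := Real.measurable_exp.mul H.hm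
theorem eh_nonneg (H : Ren h ψ B δ) (w : ℝ) : 0 ≤ eh h w := mul_nonneg (Real.exp_pos _).le (H.h0 w)
theorem eh_le (H : Ren h ψ B δ) (w : ℝ) : eh h w ≤ B * Real.exp w := by
  unfold eh
  rw [mul_comm B]
  exact mul_le_mul_of_nonneg_left (H.hB w) (Real.exp_pos _).le

theorem eh_iint (H : Ren h ψ B δ) (a b : ℝ) : IntervalIntegrable (eh h) volume a b := by
  rw [intervalIntegrable_iff]
  refine Integrable.mono' (g := fun u => B * Real.exp u) ?_
    (eh_meas H).aestronglyMeasurable (Eventually.of_forall fun u => ?_)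
  · rw [← IntegrableOn, ← intervalIntegrable_iff]
    exact (by fun_prop : Continuous fun u : ℝ => B * Real.exp u).intervalIntegrable _ _
  · rw [Real.norm_of_nonneg (eh_nonneg H u)]; exact eh_le H u

/-- `∫_0^u e^w h(w) dw` -/
noncomputable def G (h : ℝ → ℝ) (u : ℝ) : ℝ := ∫ w in (0)..u, eh h w

theorem G_sub (H : Ren h ψ B δ) (a b : ℝ) : G h b - G h a = ∫ w in a..b, eh h w :=
  intervalIntegral.integral_interval_sub_left (eh_iint H _ _) (eh_iint H _ _)

theorem G_mono (H : Ren h ψ B δ) : Monotone (G h) := by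
  intro a b hab
  have := G_sub H a b
  have h2 := intervalIntegral.integral_nonneg (μ := volume) hab fun u _ => eh_nonneg H u
  linarith

theorem G_zero : G h 0 = 0 := intervalIntegral.integral_same
theorem G_nonneg (H : Ren h ψ B δ) {u : ℝ} (hu : 0 ≤ u) : 0 ≤ G h u := by
  have := G_mono H hu; rwa [G_zero] at this
theorem G_le (H : Ren h ψ B δ) {u : ℝ} (hu : 0 ≤ u) : G h u ≤ B * Real.exp u := by
  have h1 : G h u ≤ ∫ w in (0)..u, B * Real.exp w :=
    intervalIntegral.integral_mono_on hu (eh_iint H _ _)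
      ((by fun_prop : Continuous fun u : ℝ => B * Real.exp u).intervalIntegrable _ _)
      fun w _ => eh_le H w
  rw [intervalIntegral.integral_const_mul, integral_exp, Real.exp_zero] at h1
  have := H.B0
  nlinarith

/-- `S(x) = ∫_0^(log x) e^w h(w) dw` -/
noncomputable def S (h : ℝ → ℝ) (x : ℝ) : ℝ := G h (Real.log (max x 1))

theorem S_mono (H : Ren h ψ B δ) : Monotone (S h) := by
  intro a b hab
  apply G_mono H
  exact Real.log_le_log (by positivity) (max_le_max_right _ hab)
theorem S_nonneg (H : Ren h ψ B δ) (x : ℝ) : 0 ≤ S h x :=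
  G_nonneg H (Real.log_nonneg (le_max_right _ _))
theorem S_le (H : Ren h ψ B δ) (x : ℝ) (hx : 1 ≤ x) : S h x ≤ B * x := by
  unfold S
  rw [max_eq_left hx]
  have := G_le H (Real.log_nonneg hx)
  rwa [Real.exp_log (by linarith)] at this

open Pool.Agent.Helper799.PNT in
theorem ff_S {u : ℝ} (hu : 0 ≤ u) : ff (S h) u = G h u * Real.exp (-u) := by
  unfold ff S
  rw [max_eq_left (Real.one_le_exp hu), Real.log_exp]

/-- the kernel for Fubini -/
noncomputable def Kf (h : ℝ → ℝ) (z : ℂ) (u w : ℝ) : ℂ :=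
  if w < u then (eh h w : ℂ) * Complex.exp (-(1 + z) * u) else 0

theorem Kf_meas (H : Ren h ψ B δ) (z : ℂ) : Measurable (Function.uncurry (Kf h z)) := by
  have : Function.uncurry (Kf h z) = fun p : ℝ × ℝ =>
      if p.2 < p.1 then (eh h p.2 : ℂ) * Complex.exp (-(1 + z) * p.1) else 0 := by
    ext p; rfl
  rw [this]
  have h1 : Measurable fun p : ℝ × ℝ => (eh h p.2 : ℂ) * Complex.exp (-(1 + z) * p.1) := by
    have h2 : Measurable fun p : ℝ × ℝ => eh h p.2 := (eh_meas H).comp measurable_snd
    fun_prop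
  exact Measurable.ite (measurableSet_lt measurable_snd measurable_fst) h1 measurable_const

theorem Kf_norm (H : Ren h ψ B δ) {z : ℂ} (hz : 0 < z.re) (u w : ℝ) :
    ‖Kf h z u w‖ ≤ B * (Real.exp (-(z.re / 2) * u) * Real.exp (-(z.re / 2) * w)) := by
  have hB := H.B0
  unfold Kf
  split_ifs with h'
  · rw [norm_mul, Complex.norm_real, Real.norm_of_nonneg (eh_nonneg H w), Complex.norm_exp]
    have e : (-(1 + z) * (u : ℂ)).re = -(1 + z.re) * u := by simp
    rw [e]
    calc eh h w * Real.exp (-(1 + z.re) * u) ≤ B * Real.exp w * Real.exp (-(1 + z.re) * u) :=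
          mul_le_mul_of_nonneg_right (eh_le H w) (Real.exp_pos _).le
      _ = B * Real.exp (w - (1 + z.re) * u) := by rw [mul_assoc, ← Real.exp_add]; congr 2; ring
      _ ≤ B * Real.exp (-(z.re / 2) * u + -(z.re / 2) * w) := by
          apply mul_le_mul_of_nonneg_left _ hB
          apply Real.exp_le_exp.2
          nlinarith
      _ = _ := by rw [Real.exp_add]
  · rw [norm_zero]; positivity

theorem Kf_int (H : Ren h ψ B δ) {z : ℂ} (hz : 0 < z.re) : Integrable (Function.uncurry (Kf h z))
    ((volume.restrict (Ioi (0 : ℝ))).prod (volume.restrict (Ioi (0 : ℝ)))) := by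
  have h1 : IntegrableOn (fun u : ℝ => Real.exp (-(z.re / 2) * u)) (Ioi 0) :=
    integrableOn_exp_mul_Ioi (by linarith) 0
  refine Integrable.mono' ((h1.mul_prod h1).const_mul B) (Kf_meas H z).aestronglyMeasurable
    (Eventually.of_forall fun p => ?_)
  exact Kf_norm H hz p.1 p.2

open Pool.Agent.Helper799.PNT in
/-- the Laplace transform of `g` -/
theorem Lg_eq (H : Ren h ψ B δ) {z : ℂ} (hz : 0 < z.re) :
    ∫ u in Ioi (0 : ℝ), ((ff (S h) u : ℝ) : ℂ) * Complex.exp (-z * u) = Lh h z / (1 + z) := by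
  have h1 : ∫ u in Ioi (0 : ℝ), ((ff (S h) u : ℝ) : ℂ) * Complex.exp (-z * u) =
      ∫ u in Ioi (0 : ℝ), ∫ w in Ioi (0 : ℝ), Kf h z u w := by
    refine setIntegral_congr_fun measurableSet_Ioi fun u hu => ?_
    have hu' : (0 : ℝ) < u := hu
    have e1 : ∫ w in Ioi (0 : ℝ), Kf h z u w = ∫ w in Ioc 0 u, (eh h w : ℂ) * Complex.exp (-(1 + z) * u) := by
      rw [integral_Ioc_eq_integral_Ioo, ← integral_indicator measurableSet_Ioi,
        ← integral_indicator measurableSet_Ioo]
      congr 1
      ext w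
      unfold Kf
      by_cases h0 : 0 < w
      · rw [indicator_of_mem (show w ∈ Ioi 0 from h0)]
        by_cases h2 : w < u
        · rw [if_pos h2, indicator_of_mem (show w ∈ Ioo 0 u from ⟨h0, h2⟩)]
        · rw [if_neg h2, indicator_of_notMem (show w ∉ Ioo 0 u from fun h => h2 h.2)]
      · rw [indicator_of_notMem (show w ∉ Ioi 0 from h0),
          indicator_of_notMem (show w ∉ Ioo 0 u from fun h => h0 h.1)]
    have e3 : ∫ w in Ioc 0 u, (eh h w : ℂ) = ((G h u : ℝ) : ℂ) := by
      unfold G
      rw [intervalIntegral.integral_of_le hu'.le]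
      exact integral_ofReal
    rw [e1, integral_mul_const, e3]
    rw [ff_S hu'.le]
    push_cast
    rw [mul_assoc, ← Complex.exp_add]
    congr 2
    ring
  have h2 : ∫ w in Ioi (0 : ℝ), ∫ u in Ioi (0 : ℝ), Kf h z u w = ∫ w in Ioi (0 : ℝ), F h z w / (1 + z) := by
    refine setIntegral_congr_fun measurableSet_Ioi fun w hw => ?_
    have hw' : (0 : ℝ) < w := hw
    have e1 : ∫ u in Ioi (0 : ℝ), Kf h z u w = ∫ u in Ioi w, (eh h w : ℂ) * Complex.exp (-(1 + z) * u) := by
      rw [← integral_indicator measurableSet_Ioi, ← integral_indicator measurableSet_Ioi]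
      congr 1
      ext u
      unfold Kf
      by_cases h2 : w < u
      · rw [indicator_of_mem (show u ∈ Ioi 0 from hw'.trans h2), if_pos h2,
          indicator_of_mem (show u ∈ Ioi w from h2)]
      · rw [indicator_of_notMem (show u ∉ Ioi w from h2)]
        by_cases h0 : 0 < u
        · rw [indicator_of_mem (show u ∈ Ioi 0 from h0), if_neg h2]
        · rw [indicator_of_notMem (show u ∉ Ioi 0 from h0)]
    have hre : (-(1 + z)).re < 0 := by simp; linarith
    rw [e1, integral_const_mul, integral_exp_mul_complex_Ioi hre]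
    have hne : (1 + z) ≠ 0 := one_add_ne hz.le
    unfold F eh
    have e2 : Complex.exp (w : ℂ) * Complex.exp (-(1 + z) * w) = Complex.exp (-z * w) := by
      rw [← Complex.exp_add]; congr 1; ring
    push_cast
    rw [← e2]
    field_simp
  rw [h1, integral_integral_swap (Kf_int H hz), h2, integral_div]
  rfl

theorem Lh_cont (H : Ren h ψ B δ) {z : ℂ} (hz : 0 < z.re) : ContinuousAt (Lh h) z := by
  have hnb : ∀ᶠ w in 𝓝 z, z.re / 2 < w.re :=
    (Complex.continuous_re.tendsto z).eventually (lt_mem_nhds (by linarith))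
  refine continuousAt_of_dominated (bound := fun u => B * Real.exp (-(z.re / 2) * u))
    (Eventually.of_forall fun w => (F_meas H.hm w).aestronglyMeasurable) ?_
    ((integrableOn_exp_mul_Ioi (by linarith) 0).const_mul _) (Eventually.of_forall fun u => ?_)
  · filter_upwards [hnb] with w hw
    refine (ae_restrict_mem measurableSet_Ioi).mono fun u hu => ?_
    have hu' : (0 : ℝ) < u := hu
    refine (F_norm H w u).trans ?_
    apply mul_le_mul_of_nonneg_left _ H.B0
    apply Real.exp_le_exp.2
    nlinarith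
  · unfold F
    fun_prop

/-- the continuous extension -/
noncomputable def Phi (h ψ : ℝ → ℝ) (z : ℂ) : ℂ :=
  if z.re < 1 / 2 then dslope (Mz h ψ) 0 z else Lh h z / (1 + z) - A0 h ψ / z

theorem F1_eq (H : Ren h ψ B δ) {z : ℂ} (h0 : 0 < z.re) (h1 : z.re < 1) :
    dslope (Mz h ψ) 0 z = Lh h z / (1 + z) - A0 h ψ / z := by
  have hz : z ≠ 0 := by rintro rfl; simp at h0
  have h2 := Lh_eq H h0
  have h3 := D1_ne_zero h0.le h1
  have h4 := one_add_ne h0.le
  have h5 : D z = D1 z * z := by rw [D1_ne hz]; field_simp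
  rw [dslope_of_ne _ hz, slope_def_field, Mz_zero, sub_zero]
  unfold Mz
  rw [← h2, h5]
  field_simp

theorem Phi_of_pos (H : Ren h ψ B δ) {z : ℂ} (h0 : 0 < z.re) :
    Phi h ψ z = Lh h z / (1 + z) - A0 h ψ / z := by
  unfold Phi
  split_ifs with h'
  · exact F1_eq H h0 (by linarith)
  · rfl

theorem F1_cont (H : Ren h ψ B δ) {z : ℂ} (h0 : 0 ≤ z.re) (h1 : z.re < 1) :
    ContinuousAt (dslope (Mz h ψ) 0) z := by
  by_cases hz : z = 0
  · rw [hz]
    exact continuousAt_dslope_same.2 (Mz_diff H (by simp) (by simp))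
  · exact (continuousAt_dslope_of_ne hz).2 (Mz_diff H h0 h1).continuousAt

theorem Phi_cont (H : Ren h ψ B δ) : ContinuousOn (Phi h ψ) {z | 0 ≤ z.re} := by
  intro z hz
  have hz' : 0 ≤ z.re := hz
  apply ContinuousAt.continuousWithinAt
  rcases lt_or_ge z.re (1 / 2) with h' | h'
  · have h1 : Phi h ψ =ᶠ[𝓝 z] dslope (Mz h ψ) 0 := by
      filter_upwards [(Complex.continuous_re.tendsto z).eventually (gt_mem_nhds h')] with w hw
      exact if_pos hw
    exact (F1_cont H hz' (by linarith)).congr h1.symm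
  · have h1 : Phi h ψ =ᶠ[𝓝 z] fun w => Lh h w / (1 + w) - A0 h ψ / w := by
      filter_upwards [(Complex.continuous_re.tendsto z).eventually
        (lt_mem_nhds (show (0 : ℝ) < z.re by linarith))] with w hw
      exact Phi_of_pos H hw
    refine ContinuousAt.congr ?_ h1.symm
    have hz0 : z ≠ 0 := by rintro rfl; norm_num at h'
    exact ((Lh_cont H (by linarith)).div (by fun_prop) (one_add_ne (by linarith))).sub
      (continuousAt_const.div continuousAt_id hz0)

open Pool.Agent.Helper799.PNT in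
theorem hE (H : Ren h ψ B δ) (σ : ℝ) (hσ : 0 < σ) (y : ℝ) :
    ∫ u in Ioi (0:ℝ), ((ff (S h) u - A0 h ψ : ℝ) : ℂ) *
    Complex.exp (-((σ:ℂ) + Complex.I * y) * u) = Phi h ψ (σ + Complex.I * y) := by
  set z : ℂ := (σ:ℂ) + Complex.I * y with hz
  have hzre : z.re = σ := by simp [hz]
  have hz0 : 0 < z.re := by rw [hzre]; exact hσ
  rw [Phi_of_pos H hz0, ← Lg_eq H hz0]
  have hexp : ∫ u in Ioi (0:ℝ), Complex.exp (-z * u) = 1 / z := by
    rw [integral_exp_mul_complex_Ioi (by simpa using hz0)]
    simp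
  have hiexp : IntegrableOn (fun u : ℝ => Complex.exp (-z * u)) (Ioi 0) :=
    integrableOn_exp_mul_complex_Ioi (by simpa using hz0) 0
  have hSm := ff_measurable (S_mono H)
  have hiff : IntegrableOn (fun u : ℝ => ((ff (S h) u : ℝ) : ℂ) * Complex.exp (-z * u)) (Ioi 0) := by
    refine Integrable.mono' (g := fun u => B * Real.exp (-σ * u)) ?_ ?_ ?_
    · exact (integrableOn_exp_mul_Ioi (by linarith) 0).const_mul B
    · exact Measurable.aestronglyMeasurable (by fun_prop)
    · refine (ae_restrict_mem measurableSet_Ioi).mono fun u hu => ?_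
      have hu' : (0:ℝ) ≤ u := le_of_lt hu
      rw [norm_mul, Complex.norm_exp, Complex.norm_real, Real.norm_of_nonneg (ff_nonneg (S_nonneg H) u)]
      have e2 : (-z * u).re = -σ * u := by simp [hz]
      rw [e2]
      exact mul_le_mul_of_nonneg_right (ff_le (S_le H) hu') (Real.exp_pos _).le
  have e : (A0 h ψ : ℂ) / z = A0 h ψ * ∫ u in Ioi (0:ℝ), Complex.exp (-z * u) := by rw [hexp]; ring
  rw [e, ← integral_const_mul, ← integral_sub hiff (hiexp.const_mul _)]
  refine integral_congr_ae (Eventually.of_forall fun u => ?_)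
  simp only
  push_cast
  ring

open Pool.Agent.Helper799.PNT in
theorem g_tendsto (H : Ren h ψ B δ) : Tendsto (fun u => G h u * Real.exp (-u)) atTop (𝓝 (A0 h ψ)) := by
  have h' := tauber (S_mono H) (S_nonneg H) (S_le H) fun L hL =>
    rl_step (S_mono H) (S_nonneg H) (S_le H) (Phi_cont H) (hE H) L hL
  refine h'.congr' ?_
  filter_upwards [eventually_ge_atTop 0] with u hu
  exact ff_S hu

theorem G_upper (H : Ren h ψ B δ) (u : ℝ) {η : ℝ} (hη : 0 ≤ η) :
    G h (u + η) - G h u ≤ η * (Real.exp (u + 2 * η) * h u) := by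
  rw [G_sub H]
  have h1 : ∫ w in u..(u + η), eh h w ≤ ∫ _w in u..(u + η), Real.exp (u + 2 * η) * h u := by
    refine intervalIntegral.integral_mono_on (by linarith) (eh_iint H _ _)
      intervalIntegrable_const fun w hw => ?_
    unfold eh
    have h2 := H.anti u w hw.1
    have h3 : Real.exp w * Real.exp w ≤ Real.exp (u + 2 * η) * Real.exp u := by
      rw [← Real.exp_add, ← Real.exp_add]
      exact Real.exp_le_exp.2 (by linarith [hw.2])
    have e1 : ∀ v : ℝ, h v = h v * Real.exp (-v) * Real.exp v := by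
      intro v; rw [mul_assoc, ← Real.exp_add, neg_add_cancel, Real.exp_zero, mul_one]
    have h4 : 0 ≤ h w * Real.exp (-w) := mul_nonneg (H.h0 w) (Real.exp_pos _).le
    calc Real.exp w * h w = Real.exp w * (h w * Real.exp (-w) * Real.exp w) := by rw [← e1 w]
      _ = Real.exp w * Real.exp w * (h w * Real.exp (-w)) := by ring
      _ ≤ Real.exp (u + 2 * η) * Real.exp u * (h u * Real.exp (-u)) :=
          mul_le_mul h3 h2 h4 (by positivity)
      _ = Real.exp (u + 2 * η) * (h u * Real.exp (-u) * Real.exp u) := by ring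
      _ = _ := by rw [← e1 u]
  refine h1.trans (le_of_eq ?_)
  rw [intervalIntegral.integral_const, smul_eq_mul]; ring

theorem G_lower (H : Ren h ψ B δ) (u : ℝ) {η : ℝ} (hη : 0 ≤ η) :
    η * (Real.exp (u - 2 * η) * h u) ≤ G h u - G h (u - η) := by
  rw [G_sub H]
  have h1 : ∫ _w in (u - η)..u, Real.exp (u - 2 * η) * h u ≤ ∫ w in (u - η)..u, eh h w := by
    refine intervalIntegral.integral_mono_on (by linarith)
      intervalIntegrable_const (eh_iint H _ _) fun w hw => ?_
    unfold eh
    have h2 := H.anti w u hw.2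
    have h3 : Real.exp (u - 2 * η) * Real.exp u ≤ Real.exp w * Real.exp w := by
      rw [← Real.exp_add, ← Real.exp_add]
      exact Real.exp_le_exp.2 (by linarith [hw.1])
    have e1 : ∀ v : ℝ, h v = h v * Real.exp (-v) * Real.exp v := by
      intro v; rw [mul_assoc, ← Real.exp_add, neg_add_cancel, Real.exp_zero, mul_one]
    have h4 : 0 ≤ h u * Real.exp (-u) := mul_nonneg (H.h0 u) (Real.exp_pos _).le
    calc Real.exp (u - 2 * η) * h u
        = Real.exp (u - 2 * η) * (h u * Real.exp (-u) * Real.exp u) := by rw [← e1 u]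
      _ = Real.exp (u - 2 * η) * Real.exp u * (h u * Real.exp (-u)) := by ring
      _ ≤ Real.exp w * Real.exp w * (h w * Real.exp (-w)) := mul_le_mul h3 h2 h4 (by positivity)
      _ = Real.exp w * (h w * Real.exp (-w) * Real.exp w) := by ring
      _ = _ := by rw [← e1 w]
  refine le_trans (le_of_eq ?_) h1
  rw [intervalIntegral.integral_const, smul_eq_mul]; ring

theorem A0_nonneg (H : Ren h ψ B δ) : 0 ≤ A0 h ψ := ge_of_tendsto (g_tendsto H) (by
  filter_upwards [eventually_ge_atTop 0] with u hu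
  exact mul_nonneg (G_nonneg H hu) (Real.exp_pos _).le)

/-- THE RENEWAL THEOREM -/
theorem h_tendsto (H : Ren h ψ B δ) : Tendsto h atTop (𝓝 (A0 h ψ)) := by
  have hA := A0_nonneg H
  have g_tendsto := g_tendsto H
  set A0 := A0 h ψ with hA0
  refine tendsto_order.2 ⟨fun a ha => ?_, fun b hb => ?_⟩
  · have hc : Tendsto (fun η : ℝ => A0 * Real.exp (-2 * η)) (𝓝[>] 0) (𝓝 (A0 * Real.exp (-2 * 0))) :=
      (by fun_prop : Continuous fun η : ℝ => A0 * Real.exp (-2 * η)).continuousWithinAt
    rw [mul_zero, Real.exp_zero, mul_one] at hc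
    obtain ⟨η, hη1, hη2⟩ := ((hc.eventually (lt_mem_nhds ha)).and self_mem_nhdsWithin).exists
    have hη : 0 < η := hη2
    have h1 : Tendsto (fun u => (G h (u + η) * Real.exp (-(u + η)) * Real.exp η
        - G h u * Real.exp (-u)) / (η * Real.exp (2 * η))) atTop
        (𝓝 ((A0 * Real.exp η - A0) / (η * Real.exp (2 * η)))) := by
      refine Tendsto.div_const (Tendsto.sub (Tendsto.mul_const _ ?_) g_tendsto) _
      exact g_tendsto.comp (tendsto_atTop_add_const_right _ _ tendsto_id)
    have h2 : a < (A0 * Real.exp η - A0) / (η * Real.exp (2 * η)) := by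
      refine hη1.trans_le ?_
      rw [le_div_iff₀ (by positivity)]
      have e1 : Real.exp (-2 * η) * Real.exp (2 * η) = 1 := by
        rw [← Real.exp_add]; simp
      have e2 := Real.add_one_le_exp η
      calc A0 * Real.exp (-2 * η) * (η * Real.exp (2 * η))
          = A0 * η * (Real.exp (-2 * η) * Real.exp (2 * η)) := by ring
        _ = A0 * η := by rw [e1, mul_one]
        _ ≤ A0 * (Real.exp η - 1) := mul_le_mul_of_nonneg_left (by linarith) hA
        _ = _ := by ring
    filter_upwards [h1.eventually (lt_mem_nhds h2)] with u hu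
    refine hu.trans_le ?_
    rw [div_le_iff₀ (by positivity)]
    have h3 := G_upper H u hη.le
    have e3 : Real.exp (-(u + η)) * Real.exp η = Real.exp (-u) := by
      rw [← Real.exp_add]; congr 1; ring
    have e4 : Real.exp (u + 2 * η) * Real.exp (-u) = Real.exp (2 * η) := by
      rw [← Real.exp_add]; congr 1; ring
    calc G h (u + η) * Real.exp (-(u + η)) * Real.exp η - G h u * Real.exp (-u)
        = (G h (u + η) - G h u) * Real.exp (-u) := by rw [mul_assoc, e3]; ring
      _ ≤ η * (Real.exp (u + 2 * η) * h u) * Real.exp (-u) :=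
          mul_le_mul_of_nonneg_right h3 (Real.exp_pos _).le
      _ = h u * (η * (Real.exp (u + 2 * η) * Real.exp (-u))) := by ring
      _ = _ := by rw [e4]
  · have hc : Tendsto (fun η : ℝ => A0 * Real.exp (2 * η)) (𝓝[>] 0) (𝓝 (A0 * Real.exp (2 * 0))) :=
      (by fun_prop : Continuous fun η : ℝ => A0 * Real.exp (2 * η)).continuousWithinAt
    rw [mul_zero, Real.exp_zero, mul_one] at hc
    obtain ⟨η, hη1, hη2⟩ := ((hc.eventually (gt_mem_nhds hb)).and self_mem_nhdsWithin).exists
    have hη : 0 < η := hη2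
    have h1 : Tendsto (fun u => (G h u * Real.exp (-u)
        - G h (u - η) * Real.exp (-(u - η)) * Real.exp (-η)) * (Real.exp (2 * η) / η)) atTop
        (𝓝 ((A0 - A0 * Real.exp (-η)) * (Real.exp (2 * η) / η))) := by
      refine Tendsto.mul_const _ (Tendsto.sub g_tendsto (Tendsto.mul_const _ ?_))
      exact g_tendsto.comp (tendsto_atTop_add_const_right _ _ tendsto_id)
    have h2 : (A0 - A0 * Real.exp (-η)) * (Real.exp (2 * η) / η) < b := by
      refine lt_of_le_of_lt ?_ hη1
      have e2 := Real.add_one_le_exp (-η)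
      calc (A0 - A0 * Real.exp (-η)) * (Real.exp (2 * η) / η)
          = A0 * (1 - Real.exp (-η)) * (Real.exp (2 * η) / η) := by ring
        _ ≤ A0 * η * (Real.exp (2 * η) / η) := by
            apply mul_le_mul_of_nonneg_right _ (by positivity)
            exact mul_le_mul_of_nonneg_left (by linarith) hA
        _ = _ := by field_simp
    filter_upwards [h1.eventually (gt_mem_nhds h2)] with u hu
    refine lt_of_le_of_lt ?_ hu
    have h3 := G_lower H u hη.le
    have e3 : Real.exp (-(u - η)) * Real.exp (-η) = Real.exp (-u) := by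
      rw [← Real.exp_add]; congr 1; ring
    have e4 : Real.exp (u - 2 * η) * Real.exp (-u) * Real.exp (2 * η) = 1 := by
      rw [← Real.exp_add, ← Real.exp_add]; rw [← Real.exp_zero]; congr 1; ring
    calc h u = (η * (Real.exp (u - 2 * η) * h u)) * Real.exp (-u) * (Real.exp (2 * η) / η) := by
          calc h u = h u * (Real.exp (u - 2 * η) * Real.exp (-u) * Real.exp (2 * η)) := by
                rw [e4, mul_one]
            _ = _ := by field_simp
      _ ≤ (G h u - G h (u - η)) * Real.exp (-u) * (Real.exp (2 * η) / η) := by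
          apply mul_le_mul_of_nonneg_right _ (by positivity)
          exact mul_le_mul_of_nonneg_right h3 (Real.exp_pos _).le
      _ = _ := by rw [mul_assoc (G h (u - η)), e3]; ring

end Pool.Agent.U931.RT
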