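import Pool.Agent.U931.PL2
import Pool.Agent.U931.RT2

/-! The tail of the perpetuity law. -/

set_option autoImplicit false

namespace Pool.Agent.U931.PL

open MeasureTheory Filter Topology Set
open Pool.Agent.W36.SL (l1 l2 l1_pos l2_pos exp_l1 exp_l2 al al_pos al_eq)

variable {a b : ℝ}

/-- `e^u H(e^u)` -/
noncomputable def h (a b : ℝ) (u : ℝ) : ℝ := Real.exp u * Hi a b (Real.exp u)
/-- the forcing term -/
noncomputable def ψ (a b : ℝ) (u : ℝ) : ℝ := h a b u - 3 / 4 * h a b (u - l1) - 1 / 4 * h a b (u + l2)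
/-- `∫_0^u h` -/
noncomputable def Kf (a b : ℝ) (u : ℝ) : ℝ := ∫ w in (0)..u, h a b w
/-- `∫_0^x H` -/
noncomputable def J (a b : ℝ) (x : ℝ) : ℝ := ∫ w in (0)..x, Hi a b w
/-- the conserved quantity -/
noncomputable def Q (a b : ℝ) (u : ℝ) : ℝ := Kf a b u - 3 / 4 * Kf a b (u - l1) - 1 / 4 * Kf a b (u + l2)

section
variable (ha : 0 ≤ a) (hb : 0 ≤ b) (hab : 0 < a + b)
include ha hb hab

theorem h_cont : Continuous (h a b) := by
  have := Hi_cont ha hb hab
  unfold h
  fun_prop

theorem ψ_cont : Continuous (ψ a b) := by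
  have := h_cont ha hb hab
  unfold ψ
  fun_prop

theorem Hi_iint (x y : ℝ) : IntervalIntegrable (Hi a b) volume x y :=
  (Hi_cont ha hb hab).intervalIntegrable _ _
theorem h_iint (x y : ℝ) : IntervalIntegrable (h a b) volume x y :=
  (h_cont ha hb hab).intervalIntegrable _ _

theorem J_sub (x y : ℝ) : J a b y - J a b x = ∫ w in x..y, Hi a b w :=
  intervalIntegral.integral_interval_sub_left (Hi_iint ha hb hab _ _) (Hi_iint ha hb hab _ _)
theorem Kf_sub (x y : ℝ) : Kf a b y - Kf a b x = ∫ w in x..y, h a b w :=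
  intervalIntegral.integral_interval_sub_left (h_iint ha hb hab _ _) (h_iint ha hb hab _ _)

theorem Kf_eq (u : ℝ) : Kf a b u = J a b (Real.exp u) - J a b 1 := by
  rw [J_sub ha hb hab]
  have h1 := intervalIntegral.integral_comp_mul_deriv (a := 0) (b := u) (f := Real.exp)
    (f' := Real.exp) (g := Hi a b) (fun x _ => Real.hasDerivAt_exp x)
    Real.continuous_exp.continuousOn (Hi_cont ha hb hab)
  rw [Real.exp_zero] at h1
  rw [← h1]
  unfold Kf h
  refine intervalIntegral.integral_congr fun x _ => ?_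
  simp only [Function.comp]
  ring

theorem J_neg {x : ℝ} (hx : x ≤ 0) : J a b x = x := by
  unfold J
  have h1 : ∫ w in (0)..x, Hi a b w = ∫ w in (0)..x, (1 : ℝ) := by
    refine intervalIntegral.integral_congr_ae (Eventually.of_forall fun w hw => ?_)
    rw [uIoc_of_ge hx] at hw
    rcases hw.2.lt_or_eq with h2 | h2
    · exact Hi_neg ha hb h2
    · rw [h2]
      have h3 : Tendsto (Hi a b) (𝓝[<] 0) (𝓝 (Hi a b 0)) :=
        ((Hi_cont ha hb hab).tendsto 0).mono_left nhdsWithin_le_nhds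
      refine tendsto_nhds_unique h3 ((tendsto_const_nhds (x := (1 : ℝ))).congr' ?_)
      filter_upwards [self_mem_nhdsWithin] with y hy
      exact (Hi_neg ha hb hy).symm
  rw [h1]; simp

theorem J_rec (x : ℝ) : J a b x = 1 / 4 * J a b (2 * x - 2 * a) + 3 / 4 * J a b ((2 * x - 2 * b) / 3)
    + (a + b) / 2 := by
  have e1 : ∫ w in (0)..x, Hi a b (2 * w - 2 * a) = 1 / 2 * (J a b (2 * x - 2 * a) - J a b (-(2 * a))) := by
    rw [J_sub ha hb hab, intervalIntegral.integral_comp_mul_sub _ (by norm_num : (2 : ℝ) ≠ 0)]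
    rw [smul_eq_mul, mul_zero, zero_sub]; norm_num
  have e2 : ∫ w in (0)..x, Hi a b (2 / 3 * w - 2 * b / 3)
      = 3 / 2 * (J a b ((2 * x - 2 * b) / 3) - J a b (-(2 * b / 3))) := by
    rw [J_sub ha hb hab, intervalIntegral.integral_comp_mul_sub _ (by norm_num : (2 / 3 : ℝ) ≠ 0)]
    rw [smul_eq_mul, mul_zero, zero_sub]
    have : (2 / 3 : ℝ) * x - 2 * b / 3 = (2 * x - 2 * b) / 3 := by ring
    rw [this]; norm_num
  have e3 : J a b x = ∫ w in (0)..x, (1 / 2 * Hi a b (2 * w - 2 * a) + 1 / 2 * Hi a b (2 / 3 * w - 2 * b / 3)) := by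
    unfold J
    refine intervalIntegral.integral_congr fun w _ => ?_
    rw [Hi_rec ha hb w]
    have g1 : 2 * (w - a) = 2 * w - 2 * a := by ring
    have g2 : 2 * (w - b) / 3 = 2 / 3 * w - 2 * b / 3 := by ring
    rw [g1, g2]; ring
  have hc := Hi_cont ha hb hab
  have j1 := J_neg ha hb hab (x := -(2 * a)) (by linarith)
  have j2 := J_neg ha hb hab (x := -(2 * b / 3)) (by linarith)
  rw [e3, intervalIntegral.integral_add, intervalIntegral.integral_const_mul,
    intervalIntegral.integral_const_mul, e1, e2, j1, j2]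
  · ring
  · exact (by fun_prop : Continuous fun w : ℝ => 1 / 2 * Hi a b (2 * w - 2 * a)).intervalIntegrable _ _
  · exact (by fun_prop : Continuous fun w : ℝ => 1 / 2 * Hi a b (2 / 3 * w - 2 * b / 3)).intervalIntegrable _ _

/-- the remainder -/
theorem Q_eq (u : ℝ) : Q a b u = (a + b) / 2
    - (1 / 4 * (J a b (2 * Real.exp u) - J a b (2 * Real.exp u - 2 * a))
      + 3 / 4 * (J a b (2 * Real.exp u / 3) - J a b (2 * Real.exp u / 3 - 2 * b / 3))) := by
  unfold Q
  rw [Kf_eq ha hb hab, Kf_eq ha hb hab, Kf_eq ha hb hab]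
  have e1 : Real.exp (u - l1) = 2 * Real.exp u / 3 := by
    rw [Real.exp_sub, exp_l1]; field_simp
  have e2 : Real.exp (u + l2) = 2 * Real.exp u := by
    rw [Real.exp_add, exp_l2]; ring
  have e3 : (2 * Real.exp u - 2 * b) / 3 = 2 * Real.exp u / 3 - 2 * b / 3 := by ring
  rw [e1, e2, J_rec ha hb hab (Real.exp u), e3]
  ring

theorem J_diff_nonneg {x c : ℝ} (hc : 0 ≤ c) : 0 ≤ J a b x - J a b (x - c) := by
  rw [J_sub ha hb hab]
  exact intervalIntegral.integral_nonneg (by linarith) fun w _ => Hi_nonneg ha hb w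

theorem J_diff_le {x c : ℝ} (hc : 0 ≤ c) : J a b x - J a b (x - c) ≤ c * Hi a b (x - c) := by
  rw [J_sub ha hb hab]
  have h1 : ∫ w in (x - c)..x, Hi a b w ≤ ∫ _w in (x - c)..x, Hi a b (x - c) :=
    intervalIntegral.integral_mono_on (by linarith) (Hi_iint ha hb hab _ _) intervalIntegrable_const
      fun w hw => Hi_anti ha hb hw.1
  rw [intervalIntegral.integral_const, smul_eq_mul] at h1
  have : x - (x - c) = c := by ring
  rwa [this] at h1

/-- bounds for the conserved quantity -/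
theorem Q_bounds : ∃ C3 : ℝ, 0 < C3 ∧ ∀ u, Q a b u ≤ (a + b) / 2 ∧ (a + b) / 2 - C3 * Real.exp (-u) ≤ Q a b u := by
  have hC := Cc_pos ha hb
  refine ⟨1 / 4 * (2 * a) * ((2 * Cc a b + 2 * (2 * a)) / 2)
    + 3 / 4 * (2 * b / 3) * ((2 * Cc a b + 2 * (2 * b / 3)) * (3 / 2)) + 1, by positivity, fun u => ?_⟩
  rw [Q_eq ha hb hab u]
  set x := Real.exp u with hx
  have hx0 : 0 < x := Real.exp_pos u
  have g1 := J_diff_nonneg ha hb hab (x := 2 * x) (c := 2 * a) (by linarith)
  have g2 := J_diff_nonneg ha hb hab (x := 2 * x / 3) (c := 2 * b / 3) (by linarith)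
  have g3 := J_diff_le ha hb hab (x := 2 * x) (c := 2 * a) (by linarith)
  have g4 := J_diff_le ha hb hab (x := 2 * x / 3) (c := 2 * b / 3) (by linarith)
  have g5 := Hi_shift ha hb (x := 2 * x) (c := 2 * a) (by linarith) (by linarith)
  have g6 := Hi_shift ha hb (x := 2 * x / 3) (c := 2 * b / 3) (by linarith) (by linarith)
  refine ⟨by linarith, ?_⟩
  have g7 : Hi a b (2 * x - 2 * a) ≤ (2 * Cc a b + 2 * (2 * a)) / 2 * Real.exp (-u) := by
    rw [Real.exp_neg, ← hx, ← div_eq_mul_inv, le_div_iff₀ hx0]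
    linarith
  have g8 : Hi a b (2 * x / 3 - 2 * b / 3) ≤ (2 * Cc a b + 2 * (2 * b / 3)) * (3 / 2) * Real.exp (-u) := by
    rw [Real.exp_neg, ← hx, ← div_eq_mul_inv, le_div_iff₀ hx0]
    linarith
  have g9 : 2 * a * Hi a b (2 * x - 2 * a) ≤ 2 * a * ((2 * Cc a b + 2 * (2 * a)) / 2 * Real.exp (-u)) :=
    mul_le_mul_of_nonneg_left g7 (by linarith)
  have g10 : 2 * b / 3 * Hi a b (2 * x / 3 - 2 * b / 3)
      ≤ 2 * b / 3 * ((2 * Cc a b + 2 * (2 * b / 3)) * (3 / 2) * Real.exp (-u)) :=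
    mul_le_mul_of_nonneg_left g8 (by linarith)
  have g11 : 0 < Real.exp (-u) := Real.exp_pos _
  nlinarith

theorem Q_tendsto : Tendsto (Q a b) atTop (𝓝 ((a + b) / 2)) := by
  obtain ⟨C3, _, hQ⟩ := Q_bounds ha hb hab
  have h1 : Tendsto (fun u : ℝ => (a + b) / 2 - C3 * Real.exp (-u)) atTop (𝓝 ((a + b) / 2)) := by
    have h2 : Tendsto (fun u : ℝ => C3 * Real.exp (-u)) atTop (𝓝 (C3 * 0)) :=
      (Real.tendsto_exp_atBot.comp tendsto_neg_atTop_atBot).const_mul C3
    have h3 := h2.const_sub ((a + b) / 2)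
    rwa [mul_zero, sub_zero] at h3
  exact tendsto_of_tendsto_of_tendsto_of_le_of_le h1 tendsto_const_nhds (fun u => (hQ u).2)
    (fun u => (hQ u).1)

theorem int_ψ (s t : ℝ) : ∫ u in s..t, ψ a b u = Q a b t - Q a b s := by
  have hc := h_cont ha hb hab
  have e1 : ∫ u in s..t, h a b (u - l1) = Kf a b (t - l1) - Kf a b (s - l1) := by
    rw [Kf_sub ha hb hab, intervalIntegral.integral_comp_sub_right]
  have e2 : ∫ u in s..t, h a b (u + l2) = Kf a b (t + l2) - Kf a b (s + l2) := by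
    rw [Kf_sub ha hb hab, intervalIntegral.integral_comp_add_right]
  unfold ψ Q
  rw [intervalIntegral.integral_sub, intervalIntegral.integral_sub, intervalIntegral.integral_const_mul,
    intervalIntegral.integral_const_mul, e1, e2, ← Kf_sub ha hb hab]
  · ring
  · exact hc.intervalIntegrable _ _
  · exact (by fun_prop : Continuous fun u : ℝ => 3 / 4 * h a b (u - l1)).intervalIntegrable _ _
  · exact (by fun_prop : Continuous fun u : ℝ => h a b u - 3 / 4 * h a b (u - l1)).intervalIntegrable _ _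
  · exact (by fun_prop : Continuous fun u : ℝ => 1 / 4 * h a b (u + l2)).intervalIntegrable _ _

omit hab in
theorem ψ_nonneg (u : ℝ) : 0 ≤ ψ a b u := by
  unfold ψ h
  have e1 : Real.exp (u - l1) = 2 * Real.exp u / 3 := by
    rw [Real.exp_sub, exp_l1]; field_simp
  have e2 : Real.exp (u + l2) = 2 * Real.exp u := by
    rw [Real.exp_add, exp_l2]; ring
  rw [e1, e2, Hi_rec ha hb (Real.exp u)]
  have h1 := Hi_anti ha hb (show 2 * (Real.exp u - a) ≤ 2 * Real.exp u by linarith)
  have h2 := Hi_anti ha hb (show 2 * (Real.exp u - b) / 3 ≤ 2 * Real.exp u / 3 by linarith)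
  have h0 := Real.exp_pos u
  nlinarith [mul_nonneg h0.le (sub_nonneg.2 h1), mul_nonneg h0.le (sub_nonneg.2 h2)]

theorem ψ_int : IntegrableOn (fun u => |ψ a b u| * Real.exp (1 / 2 * u)) (Ioi 0) := by
  obtain ⟨C3, hC3, hQ⟩ := Q_bounds ha hb hab
  have hψ := ψ_cont ha hb hab
  have hcont : Continuous fun u : ℝ => |ψ a b u| * Real.exp (1 / 2 * u) := by fun_prop
  set r : ℝ := Real.exp (-(1 / 2)) with hr
  have hr1 : r < 1 := by rw [hr]; exact Real.exp_lt_one_iff.2 (by norm_num)
  have hr0 : 0 < r := Real.exp_pos _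
  set I0 : ℝ := C3 * Real.exp (1 / 2) / (1 - r) with hI0
  have hI : ∀ n : ℕ, ∫ u in (0 : ℝ)..n, |ψ a b u| * Real.exp (1 / 2 * u) ≤ I0 * (1 - r ^ n) := by
    intro n
    induction n with
    | zero => simp
    | succ n ih =>
      rw [← intervalIntegral.integral_add_adjacent_intervals (b := (n : ℝ))
        (hcont.intervalIntegrable _ _) (hcont.intervalIntegrable _ _)]
      have h1 : ∫ u in (n : ℝ)..((n + 1 : ℕ) : ℝ), |ψ a b u| * Real.exp (1 / 2 * u)
          ≤ ∫ u in (n : ℝ)..((n + 1 : ℕ) : ℝ), ψ a b u * Real.exp (1 / 2 * (n + 1)) := by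
        refine intervalIntegral.integral_mono_on (by push_cast; linarith) (hcont.intervalIntegrable _ _)
          ((by fun_prop : Continuous fun u : ℝ => ψ a b u * Real.exp (1 / 2 * (n + 1))).intervalIntegrable _ _)
          fun w hw => ?_
        rw [abs_of_nonneg (ψ_nonneg ha hb w)]
        apply mul_le_mul_of_nonneg_left _ (ψ_nonneg ha hb w)
        apply Real.exp_le_exp.2
        have := hw.2
        push_cast at this
        linarith
      rw [intervalIntegral.integral_mul_const, int_ψ ha hb hab] at h1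
      have h2 := (hQ ((n + 1 : ℕ) : ℝ)).1
      have h3 := (hQ (n : ℝ)).2
      have h4 : Q a b ((n + 1 : ℕ) : ℝ) - Q a b n ≤ C3 * Real.exp (-(n : ℝ)) := by linarith
      have h5 : (Q a b ((n + 1 : ℕ) : ℝ) - Q a b n) * Real.exp (1 / 2 * (n + 1))
          ≤ C3 * Real.exp (-(n : ℝ)) * Real.exp (1 / 2 * (n + 1)) :=
        mul_le_mul_of_nonneg_right h4 (Real.exp_pos _).le
      have h6 : C3 * Real.exp (-(n : ℝ)) * Real.exp (1 / 2 * (n + 1)) = C3 * Real.exp (1 / 2) * r ^ n := by
        rw [hr, ← Real.exp_nat_mul, mul_assoc, mul_assoc, ← Real.exp_add, ← Real.exp_add]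
        congr 2; ring
      have h7 : I0 * (1 - r ^ (n + 1)) = I0 * (1 - r ^ n) + C3 * Real.exp (1 / 2) * r ^ n := by
        have : I0 * (1 - r) = C3 * Real.exp (1 / 2) := by
          rw [hI0]; field_simp [sub_ne_zero.2 hr1.ne']
        rw [pow_succ, ← this]; ring
      rw [h7]
      linarith
  refine integrableOn_Ioi_of_intervalIntegral_norm_bounded (l := atTop) (b := fun n : ℕ => (n : ℝ)) I0 0
    (fun n => (hcont.integrableOn_Icc).mono_set Ioc_subset_Icc_self) tendsto_natCast_atTop_atTop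
    (Eventually.of_forall fun n => ?_)
  have h1 : ∫ u in (0 : ℝ)..n, ‖|ψ a b u| * Real.exp (1 / 2 * u)‖ = ∫ u in (0 : ℝ)..n, |ψ a b u| * Real.exp (1 / 2 * u) := by
    refine intervalIntegral.integral_congr fun u _ => ?_
    rw [Real.norm_of_nonneg (by positivity)]
  rw [h1]
  have hI0' : 0 ≤ I0 := by
    rw [hI0]; exact div_nonneg (by positivity) (by linarith)
  have := hI n
  have h2 : 0 ≤ r ^ n := by positivity
  nlinarith

theorem ren : Pool.Agent.U931.RT.Ren (h a b) (ψ a b) (Cc a b) (1 / 2) where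
  hm := (h_cont ha hb hab).measurable
  h0 := fun u => mul_nonneg (Real.exp_pos u).le (Hi_nonneg ha hb _)
  hB := fun u => mul_Hi_le ha hb (Real.exp_pos u).le
  anti := fun u v huv => by
    have e : ∀ w : ℝ, h a b w * Real.exp (-w) = Hi a b (Real.exp w) := by
      intro w
      unfold h
      rw [mul_right_comm, ← Real.exp_add, add_neg_cancel, Real.exp_zero, one_mul]
    rw [e, e]
    exact Hi_anti ha hb (Real.exp_le_exp.2 huv)
  δ0 := by norm_num
  ψm := (ψ_cont ha hb hab).measurable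
  ψi := ψ_int ha hb hab
  eq := fun u _ => by unfold ψ; ring

omit ha hb hab in
/-- a window average converges -/
theorem window {g : ℝ → ℝ} (hg : Continuous g) {L : ℝ} (hL : Tendsto g atTop (𝓝 L)) {c : ℝ} (hc : 0 ≤ c) :
    Tendsto (fun u => ∫ w in u..(u + c), g w) atTop (𝓝 (c * L)) := by
  rw [Metric.tendsto_atTop]
  intro ε hε
  obtain ⟨U, hU⟩ := Metric.tendsto_atTop.1 hL (ε / (c + 1)) (by positivity)
  refine ⟨U, fun u hu => ?_⟩
  have h1 : (∫ w in u..(u + c), g w) - c * L = ∫ w in u..(u + c), (g w - L) := by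
    rw [intervalIntegral.integral_sub (hg.intervalIntegrable _ _) intervalIntegrable_const,
      intervalIntegral.integral_const, smul_eq_mul]
    ring
  rw [Real.dist_eq, h1, ← Real.norm_eq_abs]
  have h2 := intervalIntegral.norm_integral_le_of_norm_le_const (a := u) (b := u + c) (C := ε / (c + 1))
    (f := fun w => g w - L) (fun w hw => by
      rw [uIoc_of_le (by linarith)] at hw
      have := hU w (hu.trans hw.1.le)
      rw [Real.dist_eq] at this
      rw [Real.norm_eq_abs]; exact this.le)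
  refine lt_of_le_of_lt h2 ?_
  rw [add_sub_cancel_left, abs_of_nonneg hc, div_mul_eq_mul_div, div_lt_iff₀ (by linarith)]
  nlinarith

/-- THE TAIL -/
theorem tail : Tendsto (fun μ => μ * Hi a b μ) atTop (𝓝 (2 * (a + b) / Real.log (27 / 16))) := by
  have hT := Pool.Agent.U931.RT.h_tendsto (ren ha hb hab)
  set L := Pool.Agent.U931.RT.A0 (h a b) (ψ a b) with hL
  have hc := h_cont ha hb hab
  -- identification
  have h1 : Tendsto (Q a b) atTop (𝓝 (3 / 4 * (l1 * L) - 1 / 4 * (l2 * L))) := by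
    have w1 : Tendsto (fun u => ∫ w in (u - l1)..(u - l1 + l1), h a b w) atTop (𝓝 (l1 * L)) :=
      (window hc hT l1_pos.le).comp (tendsto_atTop_add_const_right _ _ tendsto_id)
    have w2 := window hc hT l2_pos.le
    refine ((w1.const_mul (3 / 4)).sub (w2.const_mul (1 / 4))).congr fun u => ?_
    rw [sub_add_cancel, ← Kf_sub ha hb hab, ← Kf_sub ha hb hab]
    unfold Q
    ring
  have h2 := tendsto_nhds_unique h1 (Q_tendsto ha hb hab)
  have h3 : L * al = (a + b) / 2 := by
    rw [← h2]; unfold al; ring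
  have h4 : L = 2 * (a + b) / Real.log (27 / 16) := by
    rw [al_eq] at h3
    have := Real.log_pos (show (1 : ℝ) < 27 / 16 by norm_num)
    rw [eq_div_iff this.ne']
    linarith
  rw [← h4]
  refine (hT.comp Real.tendsto_log_atTop).congr' ?_
  filter_upwards [eventually_gt_atTop 0] with x hx
  simp only [Function.comp, h]
  rw [Real.exp_log hx]

end

end Pool.Agent.U931.PL
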