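import Pool.Agent.W36.SL.Asymp

/-! A renewal theorem for the random walk with steps `-log 2` (probability `1/4` in the tilted law)
and `log (3/2)` (probability `3/4`): Laplace transforms. -/

set_option autoImplicit false

namespace Pool.Agent.U931.RT

open MeasureTheory Filter Topology Set
open Pool.Agent.W36.SL (l1 l2 l1_pos l2_pos exp_l1 exp_l2 D D1 al shift_Ioi D_ne D_diff D1_ne D1_diff
  D1_zero D1_ne_zero one_add_ne al_pos D_zero al_eq)

/-- the hypotheses: `h` is bounded, `e^(-u) h(u)` does not increase and `h` solves the renewal equation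
up to `ψ`, which has an exponential moment -/
structure Ren (h ψ : ℝ → ℝ) (B δ : ℝ) : Prop where
  hm : Measurable h
  h0 : ∀ u, 0 ≤ h u
  hB : ∀ u, h u ≤ B
  anti : ∀ u v, u ≤ v → h v * Real.exp (-v) ≤ h u * Real.exp (-u)
  δ0 : 0 < δ
  ψm : Measurable ψ
  ψi : IntegrableOn (fun u => |ψ u| * Real.exp (δ * u)) (Ioi 0)
  eq : ∀ u, 0 < u → h u = 3 / 4 * h (u - l1) + 1 / 4 * h (u + l2) + ψ u

variable {h ψ : ℝ → ℝ} {B δ : ℝ}

theorem Ren.B0 (H : Ren h ψ B δ) : 0 ≤ B := (H.h0 0).trans (H.hB 0)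

/-- the integrand -/
noncomputable def F (h : ℝ → ℝ) (z : ℂ) (u : ℝ) : ℂ := (h u : ℂ) * Complex.exp (-z * u)

theorem F_meas (hm : Measurable h) (z : ℂ) : Measurable (F h z) := by
  unfold F
  fun_prop

theorem F_norm (H : Ren h ψ B δ) (z : ℂ) (u : ℝ) : ‖F h z u‖ ≤ B * Real.exp (-z.re * u) := by
  unfold F
  rw [norm_mul, Complex.norm_real, Complex.norm_exp, Real.norm_of_nonneg (H.h0 u)]
  have e : (-z * (u : ℂ)).re = -z.re * u := by simp
  rw [e]
  exact mul_le_mul_of_nonneg_right (H.hB u) (Real.exp_pos _).le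

theorem F_int (H : Ren h ψ B δ) {z : ℂ} (hz : 0 < z.re) (a : ℝ) : IntegrableOn (F h z) (Ioi a) := by
  refine Integrable.mono' (g := fun u => B * Real.exp (-z.re * u))
    ((integrableOn_exp_mul_Ioi (by linarith) a).const_mul _) (F_meas H.hm z).aestronglyMeasurable
    (Eventually.of_forall fun u => F_norm H z u)

theorem F_iint (H : Ren h ψ B δ) (z : ℂ) (a b : ℝ) : IntervalIntegrable (F h z) volume a b := by
  rw [intervalIntegrable_iff]
  refine Integrable.mono' (g := fun u => B * Real.exp (-z.re * u)) ?_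
    (F_meas H.hm z).aestronglyMeasurable (Eventually.of_forall fun u => F_norm H z u)
  rw [← IntegrableOn, ← intervalIntegrable_iff]
  exact (by fun_prop : Continuous fun u : ℝ => B * Real.exp (-z.re * u)).intervalIntegrable _ _

/-- Laplace transform -/
noncomputable def Lh (h : ℝ → ℝ) (z : ℂ) : ℂ := ∫ u in Ioi (0 : ℝ), F h z u
noncomputable def E1 (h : ℝ → ℝ) (z : ℂ) : ℂ := ∫ v in (-l1)..0, F h z v
noncomputable def E2 (h : ℝ → ℝ) (z : ℂ) : ℂ := ∫ v in (0)..l2, F h z v
noncomputable def N (h : ℝ → ℝ) (z : ℂ) : ℂ :=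
  3 / 4 * Complex.exp (-z * l1) * E1 h z - 1 / 4 * Complex.exp (z * l2) * E2 h z

theorem F_int_shift (H : Ren h ψ B δ) {z : ℂ} (hz : 0 < z.re) (c : ℝ) :
    IntegrableOn (fun u => F h z (u + c)) (Ioi 0) := by
  refine Integrable.mono' (g := fun u => B * (Real.exp (-z.re * c) * Real.exp (-z.re * u)))
    (((integrableOn_exp_mul_Ioi (by linarith) 0).const_mul _).const_mul _)
    ((F_meas H.hm z).comp (measurable_add_const c)).aestronglyMeasurable
    (Eventually.of_forall fun u => ?_)
  refine (F_norm H z (u + c)).trans (le_of_eq ?_)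
  rw [← Real.exp_add]; congr 2; ring

theorem F_shift (h : ℝ → ℝ) (z : ℂ) (c u : ℝ) :
    (h (u + c) : ℂ) * Complex.exp (-z * u) = Complex.exp (z * c) * F h z (u + c) := by
  unfold F
  have : Complex.exp (z * c) * Complex.exp (-z * ((u + c : ℝ) : ℂ)) = Complex.exp (-z * u) := by
    rw [← Complex.exp_add]; congr 1; push_cast; ring
  linear_combination -(h (u + c) : ℂ) * this

theorem ψ_meas (H : Ren h ψ B δ) (z : ℂ) : Measurable (F ψ z) := F_meas H.ψm z

theorem ψ_norm (z : ℂ) {u : ℝ} (hu : 0 ≤ u) (hz : -δ ≤ z.re) :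
    ‖F ψ z u‖ ≤ |ψ u| * Real.exp (δ * u) := by
  unfold F
  rw [norm_mul, Complex.norm_real, Complex.norm_exp, Real.norm_eq_abs]
  have e : (-z * (u : ℂ)).re = -z.re * u := by simp
  rw [e]
  apply mul_le_mul_of_nonneg_left _ (abs_nonneg _)
  apply Real.exp_le_exp.2
  nlinarith

theorem ψ_int (H : Ren h ψ B δ) {z : ℂ} (hz : -δ ≤ z.re) : IntegrableOn (F ψ z) (Ioi 0) := by
  refine Integrable.mono' H.ψi (ψ_meas H z).aestronglyMeasurable ?_
  refine (ae_restrict_mem measurableSet_Ioi).mono fun u hu => ?_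
  exact ψ_norm z (le_of_lt hu) hz

theorem Lh_eq (H : Ren h ψ B δ) {z : ℂ} (hz : 0 < z.re) : Lh h z * D z = N h z + Lh ψ z := by
  have hδ := H.δ0
  have h1 : Lh h z = 3 / 4 * (Complex.exp (z * ((-l1 : ℝ) : ℂ)) * ∫ u in Ioi (0 : ℝ), F h z (u + -l1))
      + 1 / 4 * (Complex.exp (z * (l2 : ℂ)) * ∫ u in Ioi (0 : ℝ), F h z (u + l2)) + Lh ψ z := by
    rw [← integral_const_mul, ← integral_const_mul, ← integral_const_mul, ← integral_const_mul,
      ← integral_add]
    · unfold Lh
      rw [← integral_add]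
      · refine setIntegral_congr_fun measurableSet_Ioi fun u hu => ?_
        rw [← F_shift, ← F_shift]
        unfold F
        rw [H.eq u hu, sub_eq_add_neg]
        push_cast
        ring
      · refine Integrable.add (Integrable.const_mul (Integrable.const_mul ?_ _) _)
          (Integrable.const_mul (Integrable.const_mul ?_ _) _)
        · exact F_int_shift H hz _
        · exact F_int_shift H hz _
      · exact ψ_int H (by linarith)
    · refine Integrable.const_mul (Integrable.const_mul ?_ _) _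
      exact F_int_shift H hz _
    · refine Integrable.const_mul (Integrable.const_mul ?_ _) _
      exact F_int_shift H hz _
  rw [shift_Ioi, shift_Ioi] at h1
  have h2 : ∫ v in Ioi (0 + -l1), F h z v = E1 h z + Lh h z := by
    unfold E1 Lh
    rw [intervalIntegral.integral_interval_add_Ioi (F_int H hz _) (F_int H hz _), zero_add]
  have h3 : Lh h z = E2 h z + ∫ v in Ioi (0 + l2), F h z v := by
    unfold E2 Lh
    rw [zero_add, intervalIntegral.integral_interval_add_Ioi (F_int H hz _) (F_int H hz _)]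
  have h4 : ∫ v in Ioi (0 + l2), F h z v = Lh h z - E2 h z := by rw [h3]; ring
  rw [h2, h4] at h1
  have e : z * ((-l1 : ℝ) : ℂ) = -z * l1 := by push_cast; ring
  rw [e] at h1
  unfold D N
  linear_combination h1

theorem F_int_diff (H : Ren h ψ B δ) (a b : ℝ) (z₀ : ℂ) :
    DifferentiableAt ℂ (fun z => ∫ u in a..b, F h z u) z₀ := by
  have h := intervalIntegral.hasDerivAt_integral_of_dominated_loc_of_deriv_le
    (F := F h) (F' := fun z u => (h u : ℂ) * (-u * Complex.exp (-z * u))) (x₀ := z₀)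
    (s := Metric.ball z₀ 1) (a := a) (b := b) (μ := volume)
    (bound := fun u => B * (|u| * Real.exp ((|z₀.re| + 1) * |u|))) (Metric.ball_mem_nhds _ one_pos)
    (Eventually.of_forall fun z => (F_meas H.hm z).aestronglyMeasurable) (F_iint H z₀ a b)
    (by
      have := H.hm
      exact Measurable.aestronglyMeasurable (by fun_prop))
    (Eventually.of_forall fun u _ z hz => ?_)
    ((by fun_prop : Continuous fun u : ℝ => B * (|u| * Real.exp ((|z₀.re| + 1) * |u|))).intervalIntegrable _ _)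
    (Eventually.of_forall fun u _ z _ => ?_)
  · exact h.2.differentiableAt
  · rw [norm_mul, norm_mul, norm_neg, Complex.norm_real, Complex.norm_real, Complex.norm_exp,
      Real.norm_of_nonneg (H.h0 u), Real.norm_eq_abs]
    have e : (-z * (u : ℂ)).re = -z.re * u := by simp
    rw [e]
    have hz1 : |z.re - z₀.re| < 1 := by
      have := Complex.abs_re_le_norm (z - z₀)
      rw [Complex.sub_re] at this
      rw [Metric.mem_ball, dist_eq_norm] at hz
      linarith
    have hz2 : |z.re| ≤ |z₀.re| + 1 := by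
      have := abs_add_le (z.re - z₀.re) z₀.re
      rw [sub_add_cancel] at this
      linarith
    have hz3 : -z.re * u ≤ (|z₀.re| + 1) * |u| := by
      calc -z.re * u ≤ |(-z.re) * u| := le_abs_self _
        _ = |z.re| * |u| := by rw [abs_mul, abs_neg]
        _ ≤ _ := mul_le_mul_of_nonneg_right hz2 (abs_nonneg _)
    apply mul_le_mul (H.hB u) _ (by positivity) H.B0
    exact mul_le_mul_of_nonneg_left (Real.exp_le_exp.2 hz3) (abs_nonneg _)
  · unfold F
    have h1 : HasDerivAt (fun z : ℂ => -z * u) (-u : ℂ) z := by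
      simpa using (hasDerivAt_id z).neg.mul_const (u : ℂ)
    have h2 := (h1.cexp).const_mul (h u : ℂ)
    refine h2.congr_deriv ?_
    ring

/-- the transform of the forcing term -/
theorem ψ_diff (H : Ren h ψ B δ) {z₀ : ℂ} (hz₀ : 0 ≤ z₀.re) : DifferentiableAt ℂ (Lh ψ) z₀ := by
  have hδ := H.δ0
  have h := hasDerivAt_integral_of_dominated_loc_of_deriv_le (μ := volume.restrict (Ioi (0 : ℝ)))
    (F := F ψ) (F' := fun z u => (ψ u : ℂ) * (-u * Complex.exp (-z * u))) (x₀ := z₀)
    (s := Metric.ball z₀ (δ / 2))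
    (bound := fun u => 2 / δ * (|ψ u| * Real.exp (δ * u))) (Metric.ball_mem_nhds _ (by positivity))
    (Eventually.of_forall fun z => (ψ_meas H z).aestronglyMeasurable) (ψ_int H (by linarith))
    (by
      have := H.ψm
      exact Measurable.aestronglyMeasurable (by fun_prop))
    ?_ (H.ψi.const_mul _) (Eventually.of_forall fun u z _ => ?_)
  · exact h.2.differentiableAt
  · refine (ae_restrict_mem measurableSet_Ioi).mono fun u hu z hz => ?_
    have hu : 0 < u := hu
    rw [norm_mul, norm_mul, norm_neg, Complex.norm_real, Complex.norm_real, Complex.norm_exp,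
      Real.norm_eq_abs, Real.norm_eq_abs, abs_of_pos hu]
    have e : (-z * (u : ℂ)).re = -z.re * u := by simp
    rw [e]
    have hz1 : |z.re - z₀.re| < δ / 2 := by
      have := Complex.abs_re_le_norm (z - z₀)
      rw [Complex.sub_re] at this
      rw [Metric.mem_ball, dist_eq_norm] at hz
      linarith
    have hz2 : -(δ / 2) ≤ z.re := by have := (abs_lt.1 hz1).1; linarith
    have h3 : u ≤ 2 / δ * Real.exp (δ / 2 * u) := by
      have := Real.add_one_le_exp (δ / 2 * u)
      have h4 : 2 / δ * (δ / 2 * u) ≤ 2 / δ * Real.exp (δ / 2 * u) :=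
        mul_le_mul_of_nonneg_left (by linarith) (by positivity)
      have h5 : 2 / δ * (δ / 2 * u) = u := by field_simp
      linarith
    have h4 : Real.exp (-z.re * u) ≤ Real.exp (δ / 2 * u) := Real.exp_le_exp.2 (by nlinarith)
    have h5 : u * Real.exp (-z.re * u) ≤ 2 / δ * Real.exp (δ * u) := by
      calc u * Real.exp (-z.re * u) ≤ (2 / δ * Real.exp (δ / 2 * u)) * Real.exp (δ / 2 * u) :=
            mul_le_mul h3 h4 (Real.exp_pos _).le (by positivity)
        _ = 2 / δ * (Real.exp (δ / 2 * u) * Real.exp (δ / 2 * u)) := by ring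
        _ = _ := by rw [← Real.exp_add]; congr 2; ring
    calc |ψ u| * (u * Real.exp (-z.re * u)) ≤ |ψ u| * (2 / δ * Real.exp (δ * u)) :=
          mul_le_mul_of_nonneg_left h5 (abs_nonneg _)
      _ = _ := by ring
  · unfold F
    have h1 : HasDerivAt (fun z : ℂ => -z * u) (-u : ℂ) z := by
      simpa using (hasDerivAt_id z).neg.mul_const (u : ℂ)
    have h2 := (h1.cexp).const_mul (ψ u : ℂ)
    refine h2.congr_deriv ?_
    ring

theorem N_diff (H : Ren h ψ B δ) {z : ℂ} (hz : 0 ≤ z.re) :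
    DifferentiableAt ℂ (fun z => N h z + Lh ψ z) z := by
  have h1 : DifferentiableAt ℂ (E1 h) z := F_int_diff H _ _ z
  have h2 : DifferentiableAt ℂ (E2 h) z := F_int_diff H _ _ z
  have h3 := ψ_diff H hz
  unfold N
  fun_prop

/-- `z * (Laplace transform of g)` -/
noncomputable def Mz (h ψ : ℝ → ℝ) (z : ℂ) : ℂ := (N h z + Lh ψ z) / (D1 z * (1 + z))

theorem Mz_diff (H : Ren h ψ B δ) {z : ℂ} (h0 : 0 ≤ z.re) (h1 : z.re < 1) :
    DifferentiableAt ℂ (Mz h ψ) z := by
  unfold Mz
  exact (N_diff H h0).div ((D1_diff z).mul (by fun_prop)) (mul_ne_zero (D1_ne_zero h0 h1) (one_add_ne h0))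

/-- the limit -/
noncomputable def A0 (h ψ : ℝ → ℝ) : ℝ :=
  (3 / 4 * (∫ v in (-l1)..0, h v) - 1 / 4 * (∫ v in (0)..l2, h v) + ∫ v in Ioi (0 : ℝ), ψ v) / al

theorem Mz_zero : Mz h ψ 0 = A0 h ψ := by
  have h1 : N h 0 + Lh ψ 0 = ((3 / 4 * (∫ v in (-l1)..0, h v) - 1 / 4 * (∫ v in (0)..l2, h v)
      + ∫ v in Ioi (0 : ℝ), ψ v : ℝ) : ℂ) := by
    unfold N E1 E2 Lh F
    simp only [neg_zero, zero_mul, Complex.exp_zero, mul_one]
    have e : ∫ u in Ioi (0 : ℝ), ((ψ u : ℝ) : ℂ) = ((∫ u in Ioi (0 : ℝ), ψ u : ℝ) : ℂ) := integral_ofReal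
    rw [intervalIntegral.integral_ofReal, intervalIntegral.integral_ofReal, e]
    push_cast
    ring
  unfold Mz A0
  rw [h1, D1_zero]
  push_cast
  ring

end Pool.Agent.U931.RT
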