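import Pool.Agent.H499R2.NDExc2
import Pool.Agent.H499R2.NDWord
import Pool.Agent.U931.PL1

/-! The weighted sum of a parity word, as a function of the residue modulo `2^K`. -/

set_option autoImplicit false

namespace Pool.Agent.U931.TS

open Finset Filter Topology
open Pool.Agent.H499R2.ND
open Pool.Agent.Helper894.Collatz (od er)
open Pool.Agent.U931.PL (Hk Hk_succ)

/-- the weight of a term -/
noncomputable def cw (a b : ℝ) (n : ℕ) : ℝ := if n % 2 = 0 then a else b

/-- the weighted sum of the first `K` terms, divided by the start, without the additive parts -/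
noncomputable def ws (a b : ℝ) (K n : ℕ) : ℝ := ∑ k ∈ range K, cw a b (Tn^[k] n) * (3 ^ od k n / 2 ^ k)

variable {a b : ℝ}

theorem ws_succ (a b : ℝ) (K n : ℕ) :
    ws a b (K + 1) n = cw a b n + (if n % 2 = 0 then 1 / 2 else 3 / 2) * ws a b K (Tn n) := by
  unfold ws
  rw [sum_range_succ', mul_sum, add_comm]
  congr 1
  · simp [od]
  · apply sum_congr rfl
    intro k _
    rw [Function.iterate_succ_apply]
    have h1 : od (k + 1) n = n % 2 + od k (Tn n) := by
      rw [add_comm k 1, Pool.Agent.Helper894.Collatz.od_add]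
      rw [Tn_eq]
      simp [od]
    rw [h1, pow_add, pow_succ]
    rcases Nat.mod_two_eq_zero_or_one n with h | h
    · rw [if_pos h, h]; field_simp
    · rw [if_neg (by omega), h]; field_simp

theorem ws_mod (a b : ℝ) (K n : ℕ) : ws a b K (n % 2 ^ K) = ws a b K n := by
  unfold ws
  apply sum_congr rfl
  intro k hk
  have hk := mem_range.1 hk
  rw [od_mod k n hk.le]
  unfold cw
  rw [parity_mod hk]

theorem sum_two_mul (f : ℕ → ℝ) (M : ℕ) :
    ∑ r ∈ range (2 * M), f r = ∑ m ∈ range M, (f (2 * m) + f (2 * m + 1)) := by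
  induction M with
  | zero => simp
  | succ M ih =>
    rw [sum_range_succ, ← ih, show 2 * (M + 1) = 2 * M + 1 + 1 by ring, sum_range_succ, sum_range_succ]
    ring

theorem sum_three (K : ℕ) (f : ℕ → ℝ) :
    ∑ m ∈ range (2 ^ K), f ((3 * m + 2) % 2 ^ K) = ∑ m ∈ range (2 ^ K), f m := by
  have hpos : 0 < 2 ^ K := by positivity
  have hinj : Set.InjOn (fun m => (3 * m + 2) % 2 ^ K) (range (2 ^ K) : Set ℕ) := by
    intro x hx y hy hxy
    have hx' : x < 2 ^ K := by simpa using hx
    have hy' : y < 2 ^ K := by simpa using hy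
    have h1 : 3 * x + 2 ≡ 3 * y + 2 [MOD 2 ^ K] := hxy
    have h2 : 3 * x ≡ 3 * y [MOD 2 ^ K] := Nat.ModEq.add_right_cancel' 2 h1
    have h3 : Nat.gcd (2 ^ K) 3 = 1 := Nat.Coprime.pow_left K (by norm_num)
    have h4 : x ≡ y [MOD 2 ^ K] := Nat.ModEq.cancel_left_of_coprime h3 h2
    have h5 : x % 2 ^ K = y % 2 ^ K := h4
    rwa [Nat.mod_eq_of_lt hx', Nat.mod_eq_of_lt hy'] at h5
  have himg : (range (2 ^ K)).image (fun m => (3 * m + 2) % 2 ^ K) = range (2 ^ K) := by
    apply Finset.eq_of_subset_of_card_le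
    · intro y hy
      rw [mem_image] at hy
      obtain ⟨m, _, rfl⟩ := hy
      exact mem_range.2 (Nat.mod_lt _ hpos)
    · rw [card_image_of_injOn hinj]
  have h := sum_image (f := f) hinj
  rw [himg] at h
  exact h.symm

/-- the proportion of the residues modulo `2^K` with weighted sum `> μ` -/
theorem card_ws (a b : ℝ) (K : ℕ) : ∀ μ : ℝ,
    ∑ r ∈ range (2 ^ K), (open Classical in if μ < ws a b K r then (1 : ℝ) else 0) = Hk a b K μ * 2 ^ K := by
  classical
  induction K with
  | zero =>
    intro μ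
    simp [ws, Hk]
  | succ K ih =>
    intro μ
    rw [pow_succ 2 K, mul_comm (2 ^ K) 2, sum_two_mul, sum_add_distrib, Hk_succ]
    have h1 : ∑ m ∈ range (2 ^ K), (if μ < ws a b (K + 1) (2 * m) then (1 : ℝ) else 0)
        = Hk a b K (2 * (μ - a)) * 2 ^ K := by
      rw [← ih]
      apply sum_congr rfl
      intro m _
      have e : Tn (2 * m) = m := by simp only [Tn]; rw [if_pos (by omega)]; omega
      have e2 : ws a b (K + 1) (2 * m) = a + 1 / 2 * ws a b K m := by
        rw [ws_succ, e, if_pos (by omega)]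
        unfold cw; rw [if_pos (by omega)]
      rw [e2]
      congr 1
      exact propext ⟨fun h => by linarith, fun h => by linarith⟩
    have h2 : ∑ m ∈ range (2 ^ K), (if μ < ws a b (K + 1) (2 * m + 1) then (1 : ℝ) else 0)
        = Hk a b K (2 * (μ - b) / 3) * 2 ^ K := by
      rw [← ih, ← sum_three K (fun r => if 2 * (μ - b) / 3 < ws a b K r then (1 : ℝ) else 0)]
      apply sum_congr rfl
      intro m _
      have e : Tn (2 * m + 1) = 3 * m + 2 := by simp only [Tn]; rw [if_neg (by omega)]; omega
      have e2 : ws a b (K + 1) (2 * m + 1) = b + 3 / 2 * ws a b K (3 * m + 2) := by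
        rw [ws_succ, e, if_neg (by omega)]
        unfold cw; rw [if_neg (by omega)]
      rw [e2, ws_mod]
      congr 1
      exact propext ⟨fun h => by linarith, fun h => by linarith⟩
    rw [h1, h2]
    push_cast
    ring

/-- density of the integers with small weighted sum, in an invariant property -/
theorem dn_ws {P : ℕ → Prop} {β : ℝ} (hP : ∀ n, P n ↔ P (Tn n)) (hβ : Dn P β) (K : ℕ) (lam : ℝ) :
    Dn (fun n => ws a b K n ≤ lam ∧ P n) (β * (1 - Hk a b K lam)) := by
  classical
  have h := dn_res hP hβ (q := 2 ^ K) (by positivity) (R := (range (2 ^ K)).filter (fun r => ws a b K r ≤ lam))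
    (fun r hr => mem_range.1 (mem_filter.1 hr).1)
  have e : (fun n => n % 2 ^ K ∈ (range (2 ^ K)).filter (fun r => ws a b K r ≤ lam) ∧ P n)
      = fun n => ws a b K n ≤ lam ∧ P n := by
    funext n
    rw [mem_filter, mem_range, ws_mod]
    have : n % 2 ^ K < 2 ^ K := Nat.mod_lt _ (by positivity)
    simp [this]
  rw [e] at h
  have hc : (((range (2 ^ K)).filter (fun r => ws a b K r ≤ lam)).card : ℝ) = (1 - Hk a b K lam) * 2 ^ K := by
    have h1 := card_ws a b K lam
    have h2 : ∑ r ∈ range (2 ^ K), (if lam < ws a b K r then (1 : ℝ) else 0)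
        = (((range (2 ^ K)).filter (fun r => lam < ws a b K r)).card : ℝ) := by
      rw [← sum_filter, sum_const, nsmul_eq_mul, mul_one]
    have h3 := card_filter_add_card_filter_not (s := range (2 ^ K)) (fun r => lam < ws a b K r)
    rw [card_range] at h3
    have h4 : (((range (2 ^ K)).filter (fun r => lam < ws a b K r)).card : ℝ)
      + (((range (2 ^ K)).filter (fun r => ¬ lam < ws a b K r)).card : ℝ) = 2 ^ K := by exact_mod_cast h3
    have h5 : (range (2 ^ K)).filter (fun r => ws a b K r ≤ lam)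
        = (range (2 ^ K)).filter (fun r => ¬ lam < ws a b K r) := filter_congr fun r _ => not_lt.symm
    rw [h5]
    rw [h2] at h1
    rw [h1] at h4
    linarith
  have e2 : β * (1 - Hk a b K lam) = (((range (2 ^ K)).filter (fun r => ws a b K r ≤ lam)).card : ℝ)
      * (β / ((2 ^ K : ℕ) : ℝ)) := by
    rw [hc]
    push_cast
    field_simp
  rw [e2]
  exact h

end Pool.Agent.U931.TS
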