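import Pool.Agent.U931.TS1

/-! Tail estimates for the terms of a trajectory. -/

set_option autoImplicit false

namespace Pool.Agent.U931.TS

open Finset Filter Topology
open Pool.Agent.H499R2.ND
open Pool.Agent.H319R2.Lln (mu)
open Pool.Agent.Helper894.Collatz (od er)

/-- too many odd steps at time `k` -/
def Many (k n : ℕ) : Prop := (1.38 : ℝ) ^ k < 1.75 ^ od k n

theorem Many_mod (k n : ℕ) : Many k (n % 2 ^ k) ↔ Many k n := by
  unfold Many; rw [od_mod k n le_rfl]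

theorem card_many (k : ℕ) : (open Classical in (((range (2 ^ k)).filter (Many k)).card : ℝ))
    ≤ (275 / 276) ^ k * 2 ^ k := by
  classical
  have h1 := Pool.Agent.Helper894.Collatz.sum_pow_od k 1.75
  have h2 : (((range (2 ^ k)).filter (Many k)).card : ℝ) * 1.38 ^ k ≤ 2.75 ^ k := by
    calc (((range (2 ^ k)).filter (Many k)).card : ℝ) * 1.38 ^ k
        = ∑ _r ∈ (range (2 ^ k)).filter (Many k), (1.38 : ℝ) ^ k := by rw [sum_const, nsmul_eq_mul]
      _ ≤ ∑ r ∈ (range (2 ^ k)).filter (Many k), (1.75 : ℝ) ^ od k r :=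
          sum_le_sum fun r hr => (mem_filter.1 hr).2.le
      _ ≤ ∑ r ∈ range (2 ^ k), (1.75 : ℝ) ^ od k r :=
          sum_le_sum_of_subset_of_nonneg (filter_subset _ _) fun _ _ _ => by positivity
      _ = 2.75 ^ k := by rw [h1]; norm_num
  have h3 : (0 : ℝ) < 1.38 ^ k := by positivity
  have h4 : ((275 / 276 : ℝ) ^ k * 2 ^ k) * 1.38 ^ k = 2.75 ^ k := by
    rw [← mul_pow, ← mul_pow]; norm_num
  rw [← h4] at h2
  exact le_of_mul_le_mul_right h2 h3

theorem many_one (k N : ℕ) : cnt (fun n => 2 ^ k ≤ n ∧ Many k n) N ≤ 2 * (275 / 276) ^ k * N := by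
  classical
  rcases lt_or_ge N (2 ^ k) with h | h
  · have : cnt (fun n => 2 ^ k ≤ n ∧ Many k n) N ≤ 0 := by
      rw [cnt_eq, filter_false_of_mem]
      · simp
      · intro n hn hcon
        rw [mem_Icc] at hn
        omega
    refine this.trans (by positivity)
  · have h1 : cnt (fun n => 2 ^ k ≤ n ∧ Many k n) N
        ≤ cnt (fun n => n % 2 ^ k ∈ (range (2 ^ k)).filter (Many k)) N := by
      refine cnt_mono N fun n hn _ ⟨h2, h3⟩ => ?_
      rw [mem_filter, mem_range]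
      exact ⟨Nat.mod_lt _ (by positivity), (Many_mod k n).2 h3⟩
    have h2 := card_mod_le N (2 ^ k) ((range (2 ^ k)).filter (Many k))
    have h3 := card_many k
    rw [cnt_eq] at h1
    have h4 : ((N / 2 ^ k + 1 : ℕ) : ℝ) * 2 ^ k ≤ 2 * N := by
      have : (N / 2 ^ k + 1) * 2 ^ k ≤ 2 * N := by
        have := Nat.div_mul_le_self N (2 ^ k)
        rw [add_mul]; omega
      exact_mod_cast this
    have h5 : cnt (fun n => n % 2 ^ k ∈ (range (2 ^ k)).filter (Many k)) N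
        ≤ ((N / 2 ^ k + 1 : ℕ) : ℝ) * (((range (2 ^ k)).filter (Many k)).card : ℝ) := by
      rw [cnt_eq]
      exact_mod_cast h2
    rw [cnt_eq]
    calc _ ≤ _ := h1
      _ ≤ _ := h5
      _ ≤ ((N / 2 ^ k + 1 : ℕ) : ℝ) * ((275 / 276) ^ k * 2 ^ k) :=
          mul_le_mul_of_nonneg_left h3 (Nat.cast_nonneg _)
      _ = (275 / 276) ^ k * (((N / 2 ^ k + 1 : ℕ) : ℝ) * 2 ^ k) := by ring
      _ ≤ (275 / 276) ^ k * (2 * N) := mul_le_mul_of_nonneg_left h4 (by positivity)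
      _ = 2 * (275 / 276) ^ k * N := by ring

theorem geom_tail {r : ℝ} (h0 : 0 ≤ r) (h1 : r < 1) (s : Finset ℕ) (K : ℕ) (hs : ∀ k ∈ s, K ≤ k) :
    ∑ k ∈ s, r ^ k ≤ r ^ K / (1 - r) := by
  have hsub : s ⊆ Ico K (s.sup id + 1) := fun k hk => by
    rw [mem_Ico]
    exact ⟨hs k hk, Nat.lt_succ_of_le (Finset.le_sup (f := id) hk)⟩
  refine (sum_le_sum_of_subset_of_nonneg hsub fun _ _ _ => by positivity).trans ?_
  rw [Finset.sum_Ico_eq_sum_range]
  have h2 : ∀ M : ℕ, ∑ i ∈ range M, r ^ (K + i) ≤ r ^ K / (1 - r) := by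
    intro M
    have h3 : ∑ i ∈ range M, r ^ (K + i) = r ^ K * ∑ i ∈ range M, r ^ i := by
      rw [mul_sum]; apply sum_congr rfl; intro i _; rw [pow_add]
    have h4 : ∑ i ∈ range M, r ^ i ≤ 1 / (1 - r) := by
      rw [geom_sum_eq h1.ne, le_div_iff₀ (by linarith)]
      have h5 : (r ^ M - 1) / (r - 1) * (1 - r) = 1 - r ^ M := by
        have : r - 1 ≠ 0 := by linarith
        field_simp
        ring
      rw [h5]
      have : 0 ≤ r ^ M := by positivity
      linarith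
    rw [h3]
    calc r ^ K * ∑ i ∈ range M, r ^ i ≤ r ^ K * (1 / (1 - r)) :=
          mul_le_mul_of_nonneg_left h4 (by positivity)
      _ = _ := by ring
  exact h2 _

/-- EARLY TIMES -/
theorem many_all (K N : ℕ) : cnt (fun n => ∃ k, K ≤ k ∧ 2 ^ k ≤ n ∧ Many k n) N
    ≤ 2 * (275 / 276) ^ K / (1 - 275 / 276) * N := by
  classical
  have h1 : cnt (fun n => ∃ k, K ≤ k ∧ 2 ^ k ≤ n ∧ Many k n) N
      ≤ ∑ k ∈ Ico K (K + N), cnt (fun n => 2 ^ k ≤ n ∧ Many k n) N := by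
    have hsub : (Icc 1 N).filter (fun n => ∃ k, K ≤ k ∧ 2 ^ k ≤ n ∧ Many k n) ⊆
        (Ico K (K + N)).biUnion (fun k => (Icc 1 N).filter (fun n => 2 ^ k ≤ n ∧ Many k n)) := by
      intro n hn
      rw [mem_filter, mem_Icc] at hn
      obtain ⟨hn1, k, hk, hk2, hk3⟩ := hn
      rw [mem_biUnion]
      refine ⟨k, ?_, by rw [mem_filter, mem_Icc]; exact ⟨hn1, hk2, hk3⟩⟩
      rw [mem_Ico]
      have : k < 2 ^ k := Nat.lt_two_pow_self
      omega
    have h2 := (card_le_card hsub).trans card_biUnion_le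
    have h3 : (((Icc 1 N).filter (fun n => ∃ k, K ≤ k ∧ 2 ^ k ≤ n ∧ Many k n)).card : ℝ)
        ≤ ∑ k ∈ Ico K (K + N), (((Icc 1 N).filter (fun n => 2 ^ k ≤ n ∧ Many k n)).card : ℝ) := by
      exact_mod_cast h2
    rw [cnt_eq]
    refine h3.trans (le_of_eq (sum_congr rfl fun k _ => ?_))
    rw [cnt_eq]
  refine h1.trans ((sum_le_sum fun k _ => many_one k N).trans ?_)
  rw [← sum_mul]
  apply mul_le_mul_of_nonneg_right _ (Nat.cast_nonneg N)
  rw [← mul_sum]
  have h2 := geom_tail (r := 275 / 276) (by norm_num) (by norm_num) (Ico K (K + N)) K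
    (fun k hk => (mem_Ico.1 hk).1)
  calc 2 * ∑ k ∈ Ico K (K + N), (275 / 276 : ℝ) ^ k ≤ 2 * ((275 / 276) ^ K / (1 - 275 / 276)) :=
        mul_le_mul_of_nonneg_left h2 (by norm_num)
    _ = _ := by ring

/-- the bound for an early term -/
theorem early_term {k n : ℕ} (hn : 1 ≤ n) (h2 : 2 ^ k ≤ n) (hm : ¬ Many k n) :
    ((Tn^[k] n : ℕ) : ℝ) ≤ 2 * n * 0.9522 ^ k := by
  unfold Many at hm
  push Not at hm
  have h4 := Pool.Agent.Helper894.Collatz.lt_pow k n (n / 2 ^ k + 1)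
    (Nat.lt_mul_div_succ n (by positivity))
  rw [Tn_eq] at h4
  have h6 : 2 ^ k * (n / 2 ^ k) ≤ n := Nat.mul_div_le n (2 ^ k)
  have h7 : 2 ^ k * Tn^[k] n ≤ 3 ^ od k n * (2 * n) := by
    calc 2 ^ k * Tn^[k] n ≤ 2 ^ k * (3 ^ od k n * (n / 2 ^ k + 1)) := Nat.mul_le_mul_left _ h4.le
      _ = 3 ^ od k n * (2 ^ k * (n / 2 ^ k) + 2 ^ k) := by ring
      _ ≤ 3 ^ od k n * (2 * n) := Nat.mul_le_mul_left _ (by omega)
  have h8 : (2 : ℝ) ^ k * ((Tn^[k] n : ℕ) : ℝ) ≤ 3 ^ od k n * (2 * n) := by exact_mod_cast h7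
  have h9 : (3 : ℝ) ^ od k n ≤ 1.9044 ^ k := by
    calc (3 : ℝ) ^ od k n ≤ (1.75 ^ 2) ^ od k n := pow_le_pow_left₀ (by norm_num) (by norm_num) _
      _ = (1.75 ^ od k n) ^ 2 := by rw [← pow_mul, ← pow_mul, mul_comm]
      _ ≤ (1.38 ^ k) ^ 2 := pow_le_pow_left₀ (by positivity) hm 2
      _ = (1.38 ^ 2) ^ k := by rw [← pow_mul, ← pow_mul, mul_comm]
      _ = 1.9044 ^ k := by norm_num
  have h10 : (2 : ℝ) ^ k * ((Tn^[k] n : ℕ) : ℝ) ≤ 2 ^ k * (2 * n * 0.9522 ^ k) := by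
    calc (2 : ℝ) ^ k * ((Tn^[k] n : ℕ) : ℝ) ≤ 3 ^ od k n * (2 * n) := h8
      _ ≤ 1.9044 ^ k * (2 * n) := mul_le_mul_of_nonneg_right h9 (by positivity)
      _ = 2 ^ k * (2 * n * 0.9522 ^ k) := by
          have : (1.9044 : ℝ) ^ k = 2 ^ k * 0.9522 ^ k := by rw [← mul_pow]; norm_num
          rw [this]; ring
  exact le_of_mul_le_mul_left h10 (by positivity)

/-- the bound for a late term -/
theorem late_term {k n : ℕ} (hn : 1 ≤ n) (h2 : n < 2 ^ k)
    (hp : |Real.log ((Tn^[k] n : ℕ) : ℝ) - Real.log n + mu * k| ≤ mu / 4 * Real.log n) :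
    ((Tn^[k] n : ℕ) : ℝ) ≤ n * Real.exp (-(mu / 2) * Real.log n) * Real.exp (-(mu / 4)) ^ k := by
  have hmu := mu_pos'
  have hnR : (0 : ℝ) < n := by exact_mod_cast hn
  have h1 := (abs_le.1 hp).2
  have h8 : Real.log n < k * Real.log 2 := by
    rw [← Real.log_pow]
    exact Real.log_lt_log hnR (by exact_mod_cast h2)
  have h9 : Real.log 2 < 1 := by
    have := Real.log_two_lt_d9; linarith
  have h11 : (k : ℝ) * Real.log 2 ≤ k := by
    have : (0 : ℝ) ≤ k := Nat.cast_nonneg k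
    nlinarith
  have hpos : (0 : ℝ) < ((Tn^[k] n : ℕ) : ℝ) := by exact_mod_cast Tn_iter_pos hn k
  have h12 : Real.log ((Tn^[k] n : ℕ) : ℝ) ≤ Real.log n + -(mu / 2) * Real.log n + -(mu / 4) * k := by
    nlinarith
  calc ((Tn^[k] n : ℕ) : ℝ) = Real.exp (Real.log ((Tn^[k] n : ℕ) : ℝ)) := (Real.exp_log hpos).symm
    _ ≤ Real.exp (Real.log n + -(mu / 2) * Real.log n + -(mu / 4) * k) := Real.exp_le_exp.2 h12
    _ = _ := by
        rw [Real.exp_add, Real.exp_add, Real.exp_log hnR, ← Real.exp_nat_mul]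
        congr 2; ring

/-- the good starting points -/
def Good (K t n : ℕ) : Prop := (∀ k, K ≤ k → 2 ^ k ≤ n → ¬ Many k n) ∧
  ∀ j ≤ t, |Real.log ((Tn^[j] n : ℕ) : ℝ) - Real.log n + mu * j| ≤ mu / 4 * Real.log n

/-- the sum of the terms from time `K` -/
theorem tail_sum {K t n : ℕ} (hn : 1 ≤ n) (hg : Good K t n) :
    ∑ k ∈ Ico K t, ((Tn^[k] n : ℕ) : ℝ) ≤ n * (2 * 0.9522 ^ K / (1 - 0.9522)
      + Real.exp (-(mu / 2) * Real.log n) / (1 - Real.exp (-(mu / 4)))) := by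
  have hmu := mu_pos'
  set r := Real.exp (-(mu / 4)) with hr
  have hr0 : 0 < r := Real.exp_pos _
  have hr1 : r < 1 := by rw [hr]; exact Real.exp_lt_one_iff.2 (by linarith)
  have h1 : ∀ k ∈ Ico K t, ((Tn^[k] n : ℕ) : ℝ) ≤ 2 * n * 0.9522 ^ k
      + n * Real.exp (-(mu / 2) * Real.log n) * r ^ k := by
    intro k hk
    rw [mem_Ico] at hk
    rcases le_or_gt (2 ^ k) n with h | h
    · have := early_term hn h (hg.1 k hk.1 h)
      have : 0 ≤ n * Real.exp (-(mu / 2) * Real.log n) * r ^ k := by positivity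
      linarith
    · have := late_term hn h (hg.2 k hk.2.le)
      have : 0 ≤ 2 * (n : ℝ) * 0.9522 ^ k := by positivity
      linarith
  refine (sum_le_sum h1).trans ?_
  rw [sum_add_distrib, ← mul_sum, ← mul_sum]
  have h2 := geom_tail (r := 0.9522) (by norm_num) (by norm_num) (Ico K t) K (fun k hk => (mem_Ico.1 hk).1)
  have h3 := geom_tail hr0.le hr1 (Ico K t) 0 (fun k _ => Nat.zero_le k)
  rw [pow_zero] at h3
  have h4 : 2 * (n : ℝ) * ∑ k ∈ Ico K t, (0.9522 : ℝ) ^ k ≤ 2 * n * (0.9522 ^ K / (1 - 0.9522)) :=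
    mul_le_mul_of_nonneg_left h2 (by positivity)
  have h5 : n * Real.exp (-(mu / 2) * Real.log n) * ∑ k ∈ Ico K t, r ^ k
      ≤ n * Real.exp (-(mu / 2) * Real.log n) * (1 / (1 - r)) :=
    mul_le_mul_of_nonneg_left h3 (by positivity)
  calc _ ≤ 2 * n * (0.9522 ^ K / (1 - 0.9522)) + n * Real.exp (-(mu / 2) * Real.log n) * (1 / (1 - r)) :=
        add_le_add h4 h5
    _ = _ := by ring

/-! ### thin targets are not met early -/

theorem zd_T {R : ℕ → Prop} (hR : Dn R 0) : Dn (fun n => R (Tn n)) 0 := by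
  classical
  rw [zd_iff] at hR ⊢
  intro ε hε
  have h1 := hR (ε / 4) (by positivity)
  have h2 : ∀ᶠ N : ℕ in atTop, cnt R (2 * N) ≤ ε / 4 * ((2 * N : ℕ) : ℝ) :=
    (tendsto_id.const_mul_atTop' (show 0 < 2 by norm_num)).eventually h1
  filter_upwards [h2] with N hN
  have h3 : cnt (fun n => R (Tn n)) N ≤ cnt R (2 * N) + cnt R (2 * N) := by
    rw [cnt_eq, cnt_eq]
    have hsplit : (Icc 1 N).filter (fun n => R (Tn n)) ⊆
        ((Icc 1 (2 * N)).filter R).image (fun m => 2 * m) ∪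
        ((Icc 1 (2 * N)).filter R).image (fun m => (2 * m - 1) / 3) := by
      intro n hn
      rw [mem_filter, mem_Icc] at hn
      rw [mem_union, mem_image, mem_image]
      have hT : 1 ≤ Tn n ∧ Tn n ≤ 2 * N := ⟨Tn_pos hn.1.1, (Tn_le hn.1.1).trans (by omega)⟩
      rcases Nat.mod_two_eq_zero_or_one n with h | h
      · left
        refine ⟨Tn n, by rw [mem_filter, mem_Icc]; exact ⟨hT, hn.2⟩, ?_⟩
        simp only [Tn]; rw [if_pos h]; omega
      · right
        refine ⟨Tn n, by rw [mem_filter, mem_Icc]; exact ⟨hT, hn.2⟩, ?_⟩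
        simp only [Tn]; rw [if_neg (by omega)]; omega
    have h4 := (card_le_card hsplit).trans (card_union_le _ _)
    have h5 := h4.trans (Nat.add_le_add card_image_le card_image_le)
    exact_mod_cast h5
  push_cast at hN
  linarith

theorem zd_iter {R : ℕ → Prop} (hR : Dn R 0) (k : ℕ) : Dn (fun n => R (Tn^[k] n)) 0 := by
  induction k generalizing R with
  | zero => exact hR
  | succ k ih =>
    have h := ih (zd_T hR)
    have e : (fun n => R (Tn^[k + 1] n)) = fun n => (fun m => R (Tn m)) (Tn^[k] n) := by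
      funext n; rw [Function.iterate_succ_apply']
    rw [e]; exact h

theorem zd_early {R : ℕ → Prop} (hR : Dn R 0) (K : ℕ) : Dn (fun n => ∃ k < K, R (Tn^[k] n)) 0 := by
  induction K with
  | zero =>
    refine zd_mono hR fun n _ h => ?_
    obtain ⟨k, hk, _⟩ := h
    omega
  | succ K ih =>
    refine zd_or ih (zd_iter hR K) fun n _ h => ?_
    obtain ⟨k, hk, hk2⟩ := h
    rcases Nat.lt_or_ge k K with h1 | h1
    · exact Or.inl ⟨k, h1, hk2⟩
    · have : k = K := by omega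
      subst this
      exact Or.inr hk2

end Pool.Agent.U931.TS
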