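import Pool.Agent.U931.TS2
import Pool.Agent.U931.PL2

/-! The law of the sum of the terms of a trajectory. -/

set_option autoImplicit false

namespace Pool.Agent.U931.TS

open Finset Filter Topology
open Pool.Agent.H499R2.ND
open Pool.Agent.H319R2.Lln (mu)
open Pool.Agent.Helper894.Collatz (od er)
open Pool.Agent.U931.PL (Hk Hk_succ Hi Hk_tendsto Hi_cont)

variable {a b : ℝ}

/-- the time of the first visit to `R` -/
noncomputable def τ (R : ℕ → Prop) (n : ℕ) : ℕ := sInf {k | R (Tn^[k] n)}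

/-- the sum of `f` along the trajectory before the first visit to `R` -/
noncomputable def Sf (f : ℕ → ℝ) (R : ℕ → Prop) (n : ℕ) : ℝ := ∑ k ∈ range (τ R n), f (Tn^[k] n)

theorem τ_eq {R : ℕ → Prop} {n t : ℕ} (h1 : R (Tn^[t] n)) (h2 : ∀ j < t, ¬ R (Tn^[j] n)) : τ R n = t := by
  unfold τ
  apply le_antisymm
  · exact Nat.sInf_le h1
  · by_contra hlt
    push Not at hlt
    have hne : {k | R (Tn^[k] n)}.Nonempty := ⟨t, h1⟩
    exact h2 _ hlt (Nat.sInf_mem hne)

theorem cw_abs (a b : ℝ) (n : ℕ) : |cw a b n| ≤ |a| + |b| := by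
  unfold cw
  split_ifs
  · linarith [abs_nonneg b]
  · linarith [abs_nonneg a]

/-- `T^k n ≥ n / 2^k` -/
theorem iter_ge (k n : ℕ) : n ≤ 2 ^ k * Tn^[k] n := by
  have h := Pool.Agent.Helper894.Collatz.iter_eq k n
  rw [Tn_eq] at h
  rw [h]
  have : 1 ≤ 3 ^ od k n := Nat.one_le_pow _ _ (by norm_num)
  calc n = 1 * n := (one_mul n).symm
    _ ≤ 3 ^ od k n * n := Nat.mul_le_mul_right _ this
    _ ≤ _ := Nat.le_add_right _ _

theorem iter_le' {n : ℕ} (hn : 1 ≤ n) (k : ℕ) : Tn^[k] n ≤ 2 ^ k * n := by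
  induction k with
  | zero => simp
  | succ k ih =>
    rw [Function.iterate_succ_apply']
    calc Tn (Tn^[k] n) ≤ 2 * Tn^[k] n := Tn_le (Tn_iter_pos hn k)
      _ ≤ 2 * (2 ^ k * n) := Nat.mul_le_mul_left _ ih
      _ = _ := by ring

/-- a single term -/
theorem term_tendsto {f : ℕ → ℝ} (hf : Tendsto (fun m : ℕ => f m / m - cw a b m) atTop (𝓝 0)) (k : ℕ) :
    Tendsto (fun n : ℕ => f (Tn^[k] n) / n - cw a b (Tn^[k] n) * (3 ^ od k n / 2 ^ k)) atTop (𝓝 0) := by
  have hT : Tendsto (fun n : ℕ => Tn^[k] n) atTop atTop := by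
    rw [tendsto_atTop]
    intro M
    filter_upwards [eventually_ge_atTop (2 ^ k * M)] with n hn
    have h1 := iter_ge k n
    have h2 : 2 ^ k * M ≤ 2 ^ k * Tn^[k] n := hn.trans h1
    exact Nat.le_of_mul_le_mul_left h2 (by positivity)
  have h1 : Tendsto (fun n : ℕ => (2 : ℝ) ^ k * |f (Tn^[k] n) / ((Tn^[k] n : ℕ) : ℝ) - cw a b (Tn^[k] n)|)
      atTop (𝓝 0) := by
    have := ((hf.comp hT).abs).const_mul ((2 : ℝ) ^ k)
    rwa [abs_zero, mul_zero] at this
  have h2 : Tendsto (fun n : ℕ => (|a| + |b|) * (3 / 2) ^ k / (n : ℝ)) atTop (𝓝 0) :=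
    tendsto_const_nhds.div_atTop tendsto_natCast_atTop_atTop
  have h3 := h1.add h2
  rw [add_zero] at h3
  refine squeeze_zero_norm' ?_ h3
  filter_upwards [eventually_ge_atTop 1] with n hn
  have hnR : (0 : ℝ) < n := by exact_mod_cast hn
  have hTpos : (0 : ℝ) < ((Tn^[k] n : ℕ) : ℝ) := by exact_mod_cast Tn_iter_pos hn k
  set x : ℝ := ((Tn^[k] n : ℕ) : ℝ) with hx
  have e1 : f (Tn^[k] n) / n - cw a b (Tn^[k] n) * (3 ^ od k n / 2 ^ k)
      = (f (Tn^[k] n) / x - cw a b (Tn^[k] n)) * (x / n) + cw a b (Tn^[k] n) * (x / n - 3 ^ od k n / 2 ^ k) := by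
    field_simp
    ring
  have h4 : x / n ≤ 2 ^ k := by
    rw [div_le_iff₀ hnR, hx]
    exact_mod_cast iter_le' hn k
  have h5 : |x / n - 3 ^ od k n / 2 ^ k| ≤ (3 / 2) ^ k / n := by
    have h6 := iter_real k n
    have h7 : x / n - 3 ^ od k n / 2 ^ k = (er k n : ℝ) / 2 ^ k / n := by
      field_simp
      rw [← hx] at h6
      linarith
    rw [h7, abs_of_nonneg (by positivity)]
    apply div_le_div_of_nonneg_right _ hnR.le
    rw [div_pow]
    apply div_le_div_of_nonneg_right _ (by positivity)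
    have := er_le k n
    exact_mod_cast le_trans (Nat.le_add_right _ _) this
  rw [Real.norm_eq_abs, e1]
  refine (abs_add_le _ _).trans (add_le_add ?_ ?_)
  · rw [abs_mul, mul_comm, abs_of_nonneg (show 0 ≤ x / n by positivity)]
    exact mul_le_mul_of_nonneg_right h4 (abs_nonneg _)
  · rw [abs_mul, mul_div_assoc]
    exact mul_le_mul (cw_abs a b _) h5 (abs_nonneg _) (by positivity)

theorem head_tendsto {f : ℕ → ℝ} (hf : Tendsto (fun m : ℕ => f m / m - cw a b m) atTop (𝓝 0)) (K : ℕ) :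
    Tendsto (fun n : ℕ => (∑ k ∈ range K, f (Tn^[k] n)) / n - ws a b K n) atTop (𝓝 0) := by
  have h := tendsto_finsetSum (range K) (fun k _ => term_tendsto hf k)
  rw [sum_const_zero] at h
  refine h.congr fun n => ?_
  unfold ws
  rw [sum_div, ← sum_sub_distrib]

/-- a function of linear growth -/
theorem lin_bound {f : ℕ → ℝ} (hf : Tendsto (fun m : ℕ => f m / m - cw a b m) atTop (𝓝 0)) :
    ∃ C : ℝ, 0 < C ∧ ∀ m : ℕ, 1 ≤ m → |f m| ≤ C * m := by
  obtain ⟨M, hM⟩ := Metric.tendsto_atTop.1 hf 1 one_pos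
  refine ⟨∑ m ∈ range M, |f m| + (1 + |a| + |b|), by positivity, fun m hm => ?_⟩
  have hmR : (1 : ℝ) ≤ m := by exact_mod_cast hm
  have hs : 0 ≤ ∑ m ∈ range M, |f m| := sum_nonneg fun _ _ => abs_nonneg _
  rcases Nat.lt_or_ge m M with h | h
  · have h1 : |f m| ≤ ∑ m ∈ range M, |f m| :=
      single_le_sum (f := fun m => |f m|) (fun _ _ => abs_nonneg _) (mem_range.2 h)
    have h2 : 0 ≤ 1 + |a| + |b| := by positivity
    calc |f m| ≤ (∑ m ∈ range M, |f m| + (1 + |a| + |b|)) * 1 := by linarith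
      _ ≤ _ := mul_le_mul_of_nonneg_left hmR (by positivity)
  · have h1 := hM m h
    rw [Real.dist_eq, sub_zero] at h1
    have h2 := cw_abs a b m
    have h3 : |f m / m| ≤ 1 + |a| + |b| := by
      have := abs_add_le (f m / m - cw a b m) (cw a b m)
      rw [sub_add_cancel] at this
      linarith
    rw [abs_div, abs_of_pos (show (0 : ℝ) < m by linarith), div_le_iff₀ (by linarith)] at h3
    have : (1 + |a| + |b|) * (m : ℝ) ≤ (∑ m ∈ range M, |f m| + (1 + |a| + |b|)) * m :=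
      mul_le_mul_of_nonneg_right (by linarith) (by linarith)
    linarith

/-- THE COMPARISON: outside a small set of `n` the sum is close to `n` times the sum of the word -/
theorem compare {f : ℕ → ℝ} (hf : Tendsto (fun m : ℕ => f m / m - cw a b m) atTop (𝓝 0))
    {P R : ℕ → Prop} (hR : Dn R 0) (hPR : ∀ n, 1 ≤ n → P n → ∃ k, R (Tn^[k] n))
    {η ε : ℝ} (hη : 0 < η) (hε : 0 < ε) : ∃ K0 : ℕ, ∀ K, K0 ≤ K →
    ∀ᶠ N : ℕ in atTop, cnt (fun n => P n ∧ η * n < |Sf f R n - n * ws a b K n|) N ≤ ε * N := by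
  classical
  obtain ⟨C, hC, hfC⟩ := lin_bound hf
  have hmu := mu_pos'
  set r := Real.exp (-(mu / 4)) with hr
  have hr1 : r < 1 := by rw [hr]; exact Real.exp_lt_one_iff.2 (by linarith)
  -- the choice of `K0`
  have l1 : Tendsto (fun K : ℕ => 2 * (275 / 276 : ℝ) ^ K / (1 - 275 / 276)) atTop (𝓝 0) := by
    have := ((tendsto_pow_atTop_nhds_zero_of_lt_one (r := (275 / 276 : ℝ)) (by norm_num) (by norm_num)).const_mul
      2).div_const (1 - 275 / 276)
    simpa using this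
  have l2 : Tendsto (fun K : ℕ => C * (2 * (0.9522 : ℝ) ^ K / (1 - 0.9522))) atTop (𝓝 0) := by
    have := (((tendsto_pow_atTop_nhds_zero_of_lt_one (r := (0.9522 : ℝ)) (by norm_num)
      (by norm_num)).const_mul 2).div_const (1 - 0.9522)).const_mul C
    simpa using this
  obtain ⟨K0, hK0⟩ := eventually_atTop.1 ((l1.eventually (gt_mem_nhds (show (0 : ℝ) < ε / 4 by positivity))).and
    (l2.eventually (gt_mem_nhds (show (0 : ℝ) < η / 4 by positivity))))
  refine ⟨K0, fun K hK => ?_⟩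
  obtain ⟨hK1, hK2⟩ := hK0 K hK
  -- large `n`
  have l3 : Tendsto (fun n : ℕ => C * (Real.exp (-(mu / 2) * Real.log n) / (1 - r))) atTop (𝓝 0) := by
    have h1 : Tendsto (fun n : ℕ => -(mu / 2) * Real.log (n : ℝ)) atTop atBot :=
      (Real.tendsto_log_atTop.comp tendsto_natCast_atTop_atTop).const_mul_atTop_of_neg (by linarith)
    have := ((Real.tendsto_exp_atBot.comp h1).div_const (1 - r)).const_mul C
    simpa using this
  have l4 := head_tendsto hf K
  obtain ⟨n1, hn1⟩ := eventually_atTop.1 ((l3.eventually (gt_mem_nhds (show (0 : ℝ) < η / 4 by positivity))).and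
    ((Metric.tendsto_nhds.1 l4) (η / 4) (by positivity)))
  -- exceptional sets
  have z1 := zd_iff.1 (full_zd (ε := mu / 4) (by positivity) R) (ε / 4) (by positivity)
  have z2 := zd_iff.1 (zd_early hR K) (ε / 4) (by positivity)
  have z3 := zd_iff.1 (zd_bdd n1) (ε / 4) (by positivity)
  filter_upwards [z1, z2, z3] with N g1 g2 g3
  have g4 := many_all K N
  have hsplit : cnt (fun n => P n ∧ η * n < |Sf f R n - n * ws a b K n|) N
      ≤ cnt (fun n => ∃ k, K ≤ k ∧ 2 ^ k ≤ n ∧ Many k n) N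
      + (cnt (fun n : ℕ => (∃ k, R (Tn^[k] n)) ∧ ¬ ∃ t : ℕ, R (Tn^[t] n) ∧ (∀ j < t, ¬ R (Tn^[j] n)) ∧
      ∀ j ≤ t, |Real.log ((Tn^[j] n : ℕ) : ℝ) - Real.log n + mu * j| ≤ mu / 4 * Real.log n) N
      + (cnt (fun n => ∃ k < K, R (Tn^[k] n)) N + cnt (fun n : ℕ => (n : ℝ) ≤ n1) N)) := by
    refine (cnt_or N (Q := fun n => ∃ k, K ≤ k ∧ 2 ^ k ≤ n ∧ Many k n)
      (R := fun n => ((∃ k, R (Tn^[k] n)) ∧ ¬ ∃ t : ℕ, R (Tn^[t] n) ∧ (∀ j < t, ¬ R (Tn^[j] n)) ∧
      ∀ j ≤ t, |Real.log ((Tn^[j] n : ℕ) : ℝ) - Real.log n + mu * j| ≤ mu / 4 * Real.log n) ∨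
      ((∃ k < K, R (Tn^[k] n)) ∨ (n : ℝ) ≤ n1)) fun n hn hnN hp => ?_).trans
      (add_le_add le_rfl ((cnt_or N fun n _ _ h => h).trans (add_le_add le_rfl (cnt_or N fun n _ _ h => h))))
    by_contra hcon
    push Not at hcon
    obtain ⟨c1, c2, c3, c4⟩ := hcon
    obtain ⟨hPn, hbig⟩ := hp
    obtain ⟨t, ht1, ht2, ht3⟩ := c2 (hPR n hn hPn)
    have hτ := τ_eq ht1 ht2
    have hKt : K ≤ t := by
      by_contra hlt
      exact c3 t (by omega) ht1
    have hnR : (0 : ℝ) < n := by exact_mod_cast hn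
    have hn1' : n1 ≤ n := by exact_mod_cast c4.le
    obtain ⟨m1, m2⟩ := hn1 n hn1'
    rw [Real.dist_eq, sub_zero] at m2
    have hgood : Good K t n := ⟨fun k hk h2 => c1 k hk h2, ht3⟩
    have h5 := tail_sum hn hgood
    have h6 : Sf f R n = ∑ k ∈ range K, f (Tn^[k] n) + ∑ k ∈ Ico K t, f (Tn^[k] n) := by
      unfold Sf
      rw [hτ, sum_range_add_sum_Ico _ hKt]
    have h7 : |∑ k ∈ Ico K t, f (Tn^[k] n)| ≤ η / 2 * n := by
      have h8 : |∑ k ∈ Ico K t, f (Tn^[k] n)| ≤ C * ∑ k ∈ Ico K t, ((Tn^[k] n : ℕ) : ℝ) := by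
        rw [mul_sum]
        exact (abs_sum_le_sum_abs _ _).trans (sum_le_sum fun k _ => hfC _ (Tn_iter_pos hn k))
      have h9 : C * ∑ k ∈ Ico K t, ((Tn^[k] n : ℕ) : ℝ) ≤ C * (n * (2 * 0.9522 ^ K / (1 - 0.9522)
          + Real.exp (-(mu / 2) * Real.log n) / (1 - r))) := mul_le_mul_of_nonneg_left h5 hC.le
      have h10 : C * (n * (2 * 0.9522 ^ K / (1 - 0.9522)
          + Real.exp (-(mu / 2) * Real.log n) / (1 - r))) = n * (C * (2 * 0.9522 ^ K / (1 - 0.9522))
          + C * (Real.exp (-(mu / 2) * Real.log n) / (1 - r))) := by ring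
      rw [h10] at h9
      refine h8.trans (h9.trans ?_)
      nlinarith
    have h8 : |∑ k ∈ range K, f (Tn^[k] n) - n * ws a b K n| ≤ η / 4 * n := by
      have e : ∑ k ∈ range K, f (Tn^[k] n) - n * ws a b K n
          = ((∑ k ∈ range K, f (Tn^[k] n)) / n - ws a b K n) * n := by
        field_simp
      rw [e, abs_mul, abs_of_pos hnR]
      exact mul_le_mul_of_nonneg_right m2.le hnR.le
    have h9 : |Sf f R n - n * ws a b K n| ≤ η / 4 * n + η / 2 * n := by
      have e : Sf f R n - n * ws a b K n = (∑ k ∈ range K, f (Tn^[k] n) - n * ws a b K n)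
          + ∑ k ∈ Ico K t, f (Tn^[k] n) := by rw [h6]; ring
      rw [e]
      exact (abs_add_le _ _).trans (add_le_add h8 h7)
    nlinarith
  have h5 : 2 * (275 / 276) ^ K / (1 - 275 / 276) * (N : ℝ) ≤ ε / 4 * N :=
    mul_le_mul_of_nonneg_right hK1.le (Nat.cast_nonneg N)
  linarith

/-- THE LAW OF THE SUM -/
theorem sum_law (ha : 0 ≤ a) (hb : 0 ≤ b) (hab : 0 < a + b) {f : ℕ → ℝ}
    (hf : Tendsto (fun m : ℕ => f m / m - cw a b m) atTop (𝓝 0))
    {P R : ℕ → Prop} {β : ℝ} (hP : ∀ n, P n ↔ P (Tn n)) (hβ : Dn P β) (hR : Dn R 0)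
    (hPR : ∀ n, 1 ≤ n → P n → ∃ k, R (Tn^[k] n)) (lam : ℝ) :
    Dn (fun n => P n ∧ Sf f R n ≤ lam * n) (β * (1 - Hi a b lam)) := by
  classical
  have hβ0 : 0 ≤ β := ge_of_tendsto' hβ fun N => div_nonneg (cntn_nonneg _ _) (Nat.cast_nonneg N)
  have hβ1 : β ≤ 1 := le_of_tendsto' hβ fun N => by
    rcases Nat.eq_zero_or_pos N with h | h
    · rw [h]; simp
    · rw [div_le_one (by exact_mod_cast h)]; exact cnt_le _ _
  unfold Dn
  rw [Metric.tendsto_atTop]
  intro ε hε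
  -- continuity
  have hcont := Hi_cont ha hb hab
  obtain ⟨η, hη, hcη⟩ := Metric.continuousAt_iff.1 (hcont.continuousAt (x := lam)) (ε / 8) (by positivity)
  have c1 := hcη (x := lam + η / 2) (by rw [Real.dist_eq, add_sub_cancel_left, abs_of_pos (by positivity)]; linarith)
  have c2 := hcη (x := lam - η / 2) (by
    rw [Real.dist_eq, sub_sub_cancel_left, abs_neg, abs_of_pos (by positivity)]; linarith)
  rw [Real.dist_eq] at c1 c2
  obtain ⟨K0, hK0⟩ := compare (a := a) (b := b) hf hR hPR (η := η / 2) (ε := ε / 8) (by positivity) (by positivity)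
  have t1 := (Metric.tendsto_nhds.1 (Hk_tendsto ha hb (lam + η / 2))) (ε / 8) (by positivity)
  have t2 := (Metric.tendsto_nhds.1 (Hk_tendsto ha hb (lam - η / 2))) (ε / 8) (by positivity)
  obtain ⟨K, ⟨hKa, hKb⟩, hKc⟩ := ((t1.and t2).and (eventually_ge_atTop K0)).exists
  rw [Real.dist_eq] at hKa hKb
  have hE := hK0 K hKc
  have d1 := (Metric.tendsto_nhds.1 (dn_ws (a := a) (b := b) hP hβ K (lam + η / 2))) (ε / 8) (by positivity)
  have d2 := (Metric.tendsto_nhds.1 (dn_ws (a := a) (b := b) hP hβ K (lam - η / 2))) (ε / 8) (by positivity)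
  obtain ⟨N0, hN0⟩ := eventually_atTop.1 ((hE.and d1).and (d2.and (eventually_gt_atTop 0)))
  refine ⟨N0, fun N hN => ?_⟩
  obtain ⟨⟨g1, g2⟩, g3, g4⟩ := hN0 N hN
  have hNR : (0 : ℝ) < N := by exact_mod_cast g4
  rw [Real.dist_eq] at g2 g3 ⊢
  have u1 : cnt (fun n => P n ∧ Sf f R n ≤ lam * n) N ≤ cnt (fun n => ws a b K n ≤ lam + η / 2 ∧ P n) N
      + cnt (fun n => P n ∧ η / 2 * n < |Sf f R n - n * ws a b K n|) N := by
    refine cnt_or N fun n hn _ hp => ?_
    by_cases h : η / 2 * n < |Sf f R n - n * ws a b K n|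
    · exact Or.inr ⟨hp.1, h⟩
    · left
      refine ⟨?_, hp.1⟩
      push Not at h
      have hnR : (0 : ℝ) < n := by exact_mod_cast hn
      have h2 := (abs_le.1 h).1
      have h3 : n * ws a b K n ≤ n * (lam + η / 2) := by linarith [hp.2]
      exact le_of_mul_le_mul_left h3 hnR
  have u2 : cnt (fun n => ws a b K n ≤ lam - η / 2 ∧ P n) N ≤ cnt (fun n => P n ∧ Sf f R n ≤ lam * n) N
      + cnt (fun n => P n ∧ η / 2 * n < |Sf f R n - n * ws a b K n|) N := by
    refine cnt_or N fun n hn _ hp => ?_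
    by_cases h : η / 2 * n < |Sf f R n - n * ws a b K n|
    · exact Or.inr ⟨hp.2, h⟩
    · left
      refine ⟨hp.2, ?_⟩
      push Not at h
      have hnR : (0 : ℝ) < n := by exact_mod_cast hn
      have h2 := (abs_le.1 h).2
      have h3 : n * ws a b K n ≤ n * (lam - η / 2) := mul_le_mul_of_nonneg_left hp.1 hnR.le
      linarith
  have v1 : cnt (fun n => P n ∧ Sf f R n ≤ lam * n) N / N
      ≤ cnt (fun n => ws a b K n ≤ lam + η / 2 ∧ P n) N / N + ε / 8 := by
    rw [div_add' _ _ _ hNR.ne']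
    apply div_le_div_of_nonneg_right _ hNR.le
    linarith
  have v2 : cnt (fun n => ws a b K n ≤ lam - η / 2 ∧ P n) N / N
      ≤ cnt (fun n => P n ∧ Sf f R n ≤ lam * n) N / N + ε / 8 := by
    rw [div_add' _ _ _ hNR.ne']
    apply div_le_div_of_nonneg_right _ hNR.le
    linarith
  have w1 : |β * (1 - Hk a b K (lam + η / 2)) - β * (1 - Hi a b lam)| ≤ ε / 4 := by
    have e : β * (1 - Hk a b K (lam + η / 2)) - β * (1 - Hi a b lam)
        = -(β * ((Hk a b K (lam + η / 2) - Hi a b (lam + η / 2)) + (Hi a b (lam + η / 2) - Hi a b lam))) := by ring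
    rw [e, abs_neg, abs_mul, abs_of_nonneg hβ0]
    have := (abs_add_le (Hk a b K (lam + η / 2) - Hi a b (lam + η / 2)) (Hi a b (lam + η / 2) - Hi a b lam))
    have h0 := abs_nonneg ((Hk a b K (lam + η / 2) - Hi a b (lam + η / 2)) + (Hi a b (lam + η / 2) - Hi a b lam))
    nlinarith
  have w2 : |β * (1 - Hk a b K (lam - η / 2)) - β * (1 - Hi a b lam)| ≤ ε / 4 := by
    have e : β * (1 - Hk a b K (lam - η / 2)) - β * (1 - Hi a b lam)
        = -(β * ((Hk a b K (lam - η / 2) - Hi a b (lam - η / 2)) + (Hi a b (lam - η / 2) - Hi a b lam))) := by ring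
    rw [e, abs_neg, abs_mul, abs_of_nonneg hβ0]
    have := (abs_add_le (Hk a b K (lam - η / 2) - Hi a b (lam - η / 2)) (Hi a b (lam - η / 2) - Hi a b lam))
    have h0 := abs_nonneg ((Hk a b K (lam - η / 2) - Hi a b (lam - η / 2)) + (Hi a b (lam - η / 2) - Hi a b lam))
    nlinarith
  have x1 := (abs_le.1 w1)
  have x2 := (abs_le.1 w2)
  have x3 := (abs_lt.1 g2)
  have x4 := (abs_lt.1 g3)
  rw [abs_lt]
  constructor <;> linarith

end Pool.Agent.U931.TS
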