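import Pool.Agent.U931.TS3
import Pool.Agent.U931.PL3

/-! All slopes at once; the periodic points; the words. -/

set_option autoImplicit false

namespace Pool.Agent.U931.TS

open Finset Filter Topology
open Pool.Agent.H499R2.ND
open Pool.Agent.H319R2.Lln (mu)
open Pool.Agent.Helper894.Collatz (od er)
open Pool.Agent.U931.PL (Hk Hk_succ Hi Hk_tendsto Hi_cont)

variable {a b : ℝ}

/-- the telescoping weights -/
theorem ws_tel (K n : ℕ) : ws (1 / 2) (-(1 / 2)) K n = 1 - 3 ^ od K n / 2 ^ K := by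
  induction K with
  | zero => simp [ws, od]
  | succ K ih =>
    have h1 : ws (1 / 2) (-(1 / 2)) (K + 1) n
        = ws (1 / 2) (-(1 / 2)) K n + cw (1 / 2) (-(1 / 2)) (Tn^[K] n) * (3 ^ od K n / 2 ^ K) := by
      unfold ws; rw [sum_range_succ]
    rw [h1, ih, Pool.Agent.Helper894.Collatz.od_succ, Tn_eq]
    unfold cw
    rcases Nat.mod_two_eq_zero_or_one (Tn^[K] n) with h | h
    · rw [if_pos h, h, add_zero, pow_succ]; field_simp; ring
    · rw [if_neg (by omega), h, pow_succ, pow_succ]; field_simp; ring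

/-- the telescoping function -/
noncomputable def gf (m : ℕ) : ℝ := m - ((Tn m : ℕ) : ℝ)

theorem gf_slopes : Tendsto (fun m : ℕ => gf m / m - cw (1 / 2) (-(1 / 2)) m) atTop (𝓝 0) := by
  have h2 : Tendsto (fun n : ℕ => (1 : ℝ) / (n : ℝ)) atTop (𝓝 0) :=
    tendsto_const_nhds.div_atTop tendsto_natCast_atTop_atTop
  refine squeeze_zero_norm' ?_ h2
  filter_upwards [eventually_ge_atTop 1] with m hm
  have hmR : (0 : ℝ) < m := by exact_mod_cast hm
  unfold gf cw
  rw [Real.norm_eq_abs]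
  rcases Nat.mod_two_eq_zero_or_one m with h | h
  · rw [if_pos h]
    have e : 2 * Tn m = m := by simp only [Tn]; rw [if_pos h]; omega
    have e2 : (2 : ℝ) * ((Tn m : ℕ) : ℝ) = m := by exact_mod_cast e
    have e3 : ((m : ℝ) - ((Tn m : ℕ) : ℝ)) / m - 1 / 2 = 0 := by
      field_simp; linarith
    rw [e3, abs_zero]; positivity
  · rw [if_neg (by omega)]
    have e : 2 * Tn m = 3 * m + 1 := by simp only [Tn]; rw [if_neg (by omega)]; omega
    have e2 : (2 : ℝ) * ((Tn m : ℕ) : ℝ) = 3 * m + 1 := by exact_mod_cast e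
    have e3 : ((m : ℝ) - ((Tn m : ℕ) : ℝ)) / m - -(1 / 2) = -(1 / (2 * m)) := by
      field_simp; linarith
    rw [e3, abs_neg, abs_of_pos (by positivity)]
    apply one_div_le_one_div_of_le hmR
    linarith

theorem Sf_gf (R : ℕ → Prop) (n : ℕ) : Sf gf R n = n - ((Tn^[τ R n] n : ℕ) : ℝ) := by
  unfold Sf gf
  have h := sum_range_sub' (fun k => ((Tn^[k] n : ℕ) : ℝ)) (τ R n)
  simp only [Function.iterate_zero, id] at h
  rw [← h]
  apply sum_congr rfl
  intro k _
  rw [Function.iterate_succ_apply']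

/-- the first visited element is small -/
theorem end_small {P R : ℕ → Prop} (hR : Dn R 0) (hPR : ∀ n, 1 ≤ n → P n → ∃ k, R (Tn^[k] n))
    {η : ℝ} (hη : 0 < η) : Dn (fun n => P n ∧ η * n < ((Tn^[τ R n] n : ℕ) : ℝ)) 0 := by
  classical
  rw [zd_iff]
  intro ε hε
  obtain ⟨K0, hK0⟩ := compare gf_slopes hR hPR (η := η / 2) (ε := ε / 4) (by positivity) (by positivity)
  have l1 : Tendsto (fun K : ℕ => 2 * (275 / 276 : ℝ) ^ K) atTop (𝓝 0) := by
    have := ((tendsto_pow_atTop_nhds_zero_of_lt_one (r := (275 / 276 : ℝ)) (by norm_num) (by norm_num)).const_mul 2)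
    simpa using this
  have l2 : Tendsto (fun K : ℕ => (0.9522 : ℝ) ^ K) atTop (𝓝 0) :=
    tendsto_pow_atTop_nhds_zero_of_lt_one (by norm_num) (by norm_num)
  obtain ⟨K, ⟨hKa, hKb⟩, hKc⟩ := (((l1.eventually (gt_mem_nhds (show (0 : ℝ) < ε / 4 by positivity))).and
    (l2.eventually (gt_mem_nhds (show (0 : ℝ) < η / 2 by positivity)))).and (eventually_ge_atTop K0)).exists
  have z3 := zd_iff.1 (zd_bdd (2 ^ K)) (ε / 4) (by positivity)
  filter_upwards [hK0 K hKc, z3] with N g1 g2
  have g3 := many_one K N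
  have hsplit : cnt (fun n => P n ∧ η * n < ((Tn^[τ R n] n : ℕ) : ℝ)) N
      ≤ cnt (fun n => P n ∧ η / 2 * n < |Sf gf R n - n * ws (1 / 2) (-(1 / 2)) K n|) N
      + (cnt (fun n => 2 ^ K ≤ n ∧ Many K n) N + cnt (fun n : ℕ => (n : ℝ) ≤ 2 ^ K) N) := by
    refine (cnt_or N (Q := fun n => P n ∧ η / 2 * n < |Sf gf R n - n * ws (1 / 2) (-(1 / 2)) K n|)
      (R := fun n => (2 ^ K ≤ n ∧ Many K n) ∨ (n : ℝ) ≤ 2 ^ K) fun n hn hnN hp => ?_).trans
      (add_le_add le_rfl (cnt_or N fun n _ _ h => h))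
    by_contra hcon
    push Not at hcon
    obtain ⟨c1, c2, c3⟩ := hcon
    have hnR : (0 : ℝ) < n := by exact_mod_cast hn
    have h1 := c1 hp.1
    have h2 : ¬ Many K n := c2 (by exact_mod_cast c3.le)
    rw [Sf_gf, ws_tel] at h1
    have h3 := (abs_le.1 h1).1
    have h4 : (3 : ℝ) ^ od K n / 2 ^ K ≤ 0.9522 ^ K := by
      unfold Many at h2
      push Not at h2
      have h9 : (3 : ℝ) ^ od K n ≤ 1.9044 ^ K := by
        calc (3 : ℝ) ^ od K n ≤ (1.75 ^ 2) ^ od K n := pow_le_pow_left₀ (by norm_num) (by norm_num) _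
          _ = (1.75 ^ od K n) ^ 2 := by rw [← pow_mul, ← pow_mul, mul_comm]
          _ ≤ (1.38 ^ K) ^ 2 := pow_le_pow_left₀ (by positivity) h2 2
          _ = (1.38 ^ 2) ^ K := by rw [← pow_mul, ← pow_mul, mul_comm]
          _ = 1.9044 ^ K := by norm_num
      rw [div_le_iff₀ (by positivity), ← mul_pow]
      refine h9.trans (le_of_eq ?_)
      norm_num
    have h5 : (n : ℝ) * (1 - 3 ^ od K n / 2 ^ K) ≥ n - n * (η / 2) := by
      have : (n : ℝ) * (3 ^ od K n / 2 ^ K) ≤ n * (η / 2) :=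
        mul_le_mul_of_nonneg_left (by linarith) hnR.le
      linarith
    linarith [hp.2]
  have h5 : 2 * (275 / 276) ^ K * (N : ℝ) ≤ ε / 4 * N :=
    mul_le_mul_of_nonneg_right hKa.le (Nat.cast_nonneg N)
  have h6 : 0 ≤ ε * (N : ℝ) := by positivity
  linarith

/-- SLUTSKY -/
theorem slutsky {P : ℕ → Prop} {β : ℝ} {X E : ℕ → ℝ} {G : ℝ → ℝ} (hG : Continuous G)
    (hX : ∀ y, Dn (fun n => P n ∧ X n ≤ y * n) (β * G y))
    (hE : ∀ η : ℝ, 0 < η → Dn (fun n => P n ∧ η * n < |E n|) 0) (y : ℝ) :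
    Dn (fun n => P n ∧ X n ≤ y * n + E n) (β * G y) := by
  classical
  unfold Dn
  rw [Metric.tendsto_atTop]
  intro ε hε
  have hc : Continuous fun x => β * G x := continuous_const.mul hG
  obtain ⟨η, hη, hcη⟩ := Metric.continuousAt_iff.1 (hc.continuousAt (x := y)) (ε / 4) (by positivity)
  have c1 := hcη (x := y + η / 2) (by rw [Real.dist_eq, add_sub_cancel_left, abs_of_pos (by positivity)]; linarith)
  have c2 := hcη (x := y - η / 2) (by
    rw [Real.dist_eq, sub_sub_cancel_left, abs_neg, abs_of_pos (by positivity)]; linarith)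
  rw [Real.dist_eq] at c1 c2
  have d1 := (Metric.tendsto_nhds.1 (hX (y + η / 2))) (ε / 4) (by positivity)
  have d2 := (Metric.tendsto_nhds.1 (hX (y - η / 2))) (ε / 4) (by positivity)
  have hz := zd_iff.1 (hE (η / 2) (by positivity)) (ε / 4) (by positivity)
  obtain ⟨N0, hN0⟩ := eventually_atTop.1 ((hz.and d1).and (d2.and (eventually_gt_atTop 0)))
  refine ⟨N0, fun N hN => ?_⟩
  obtain ⟨⟨g1, g2⟩, g3, g4⟩ := hN0 N hN
  have hNR : (0 : ℝ) < N := by exact_mod_cast g4
  rw [Real.dist_eq] at g2 g3 ⊢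
  have u1 : cnt (fun n => P n ∧ X n ≤ y * n + E n) N ≤ cnt (fun n => P n ∧ X n ≤ (y + η / 2) * n) N
      + cnt (fun n => P n ∧ η / 2 * n < |E n|) N := by
    refine cnt_or N fun n hn _ hp => ?_
    by_cases h : η / 2 * n < |E n|
    · exact Or.inr ⟨hp.1, h⟩
    · left
      refine ⟨hp.1, ?_⟩
      push Not at h
      have h2 := (abs_le.1 h).2
      linarith [hp.2]
  have u2 : cnt (fun n => P n ∧ X n ≤ (y - η / 2) * n) N ≤ cnt (fun n => P n ∧ X n ≤ y * n + E n) N
      + cnt (fun n => P n ∧ η / 2 * n < |E n|) N := by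
    refine cnt_or N fun n hn _ hp => ?_
    by_cases h : η / 2 * n < |E n|
    · exact Or.inr ⟨hp.1, h⟩
    · left
      refine ⟨hp.1, ?_⟩
      push Not at h
      have h2 := (abs_le.1 h).1
      linarith [hp.2]
  have v1 : cnt (fun n => P n ∧ X n ≤ y * n + E n) N / N
      ≤ cnt (fun n => P n ∧ X n ≤ (y + η / 2) * n) N / N + ε / 4 := by
    rw [div_add' _ _ _ hNR.ne']
    apply div_le_div_of_nonneg_right _ hNR.le
    linarith
  have v2 : cnt (fun n => P n ∧ X n ≤ (y - η / 2) * n) N / N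
      ≤ cnt (fun n => P n ∧ X n ≤ y * n + E n) N / N + ε / 4 := by
    rw [div_add' _ _ _ hNR.ne']
    apply div_le_div_of_nonneg_right _ hNR.le
    linarith
  have x1 := (abs_lt.1 c1)
  have x2 := (abs_lt.1 c2)
  have x3 := (abs_lt.1 g2)
  have x4 := (abs_lt.1 g3)
  rw [abs_lt]
  constructor <;> linarith

/-- the distribution function of the limit law -/
noncomputable def G (y : ℝ) : ℝ := 1 - Hi 0 1 y

theorem G_cont : Continuous G := by
  unfold G
  exact continuous_const.sub (Hi_cont le_rfl zero_le_one (by norm_num))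

theorem Sf_lin (f g : ℕ → ℝ) (x y : ℝ) (R : ℕ → Prop) (n : ℕ) :
    Sf (fun m => x * f m + y * g m) R n = x * Sf f R n + y * Sf g R n := by
  unfold Sf
  rw [sum_add_distrib, mul_sum, mul_sum]

/-- THE LAW for all slopes with positive sum -/
theorem gen_law {f : ℕ → ℝ} (hab : 0 < a + b)
    (hf : Tendsto (fun m : ℕ => f m / m - cw a b m) atTop (𝓝 0))
    {P R : ℕ → Prop} {β : ℝ} (hP : ∀ n, P n ↔ P (Tn n)) (hβ : Dn P β) (hR : Dn R 0)
    (hPR : ∀ n, 1 ≤ n → P n → ∃ k, R (Tn^[k] n)) (lam : ℝ) :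
    Dn (fun n => P n ∧ Sf f R n ≤ lam * n) (β * G ((lam - 2 * a) / (a + b))) := by
  set c := a + b with hc
  set h : ℕ → ℝ := fun m => (1 / c) * f m + (-(2 * a / c)) * gf m with hh
  have hs : Tendsto (fun m : ℕ => h m / m - cw 0 1 m) atTop (𝓝 0) := by
    have h1 := (hf.const_mul (1 / c)).add (gf_slopes.const_mul (-(2 * a / c)))
    rw [mul_zero, mul_zero, add_zero] at h1
    refine h1.congr fun m => ?_
    rw [hh]
    simp only
    unfold cw
    have hc0 : c ≠ 0 := hab.ne'
    rcases Nat.mod_two_eq_zero_or_one m with h' | h'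
    · rw [if_pos h', if_pos h', if_pos h']; field_simp; ring
    · rw [if_neg (by omega), if_neg (by omega), if_neg (by omega)]
      have e : b = c - a := by rw [hc]; ring
      rw [e]; field_simp; ring
  have hX := fun y => sum_law le_rfl zero_le_one (by norm_num) hs hP hβ hR hPR y
  have hE : ∀ η : ℝ, 0 < η → Dn (fun n => P n ∧ η * n < |(2 * a / c) * ((Tn^[τ R n] n : ℕ) : ℝ)|) 0 := by
    intro η hη
    have hη2 : 0 < η / (|2 * a / c| + 1) := by positivity
    refine zd_mono (end_small hR hPR hη2) fun n hn hp => ⟨hp.1, ?_⟩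
    have h1 := hp.2
    have hT : (0 : ℝ) ≤ ((Tn^[τ R n] n : ℕ) : ℝ) := Nat.cast_nonneg _
    rw [abs_mul, abs_of_nonneg hT] at h1
    rw [div_mul_eq_mul_div, div_lt_iff₀ (by positivity)]
    nlinarith [abs_nonneg (2 * a / c)]
  have key := slutsky G_cont hX hE ((lam - 2 * a) / c)
  have e : (fun n => P n ∧ Sf f R n ≤ lam * n) = fun n => P n ∧ Sf h R n ≤ (lam - 2 * a) / c * n
      + (2 * a / c) * ((Tn^[τ R n] n : ℕ) : ℝ) := by
    funext n
    congr 1
    have h1 : Sf h R n = (1 / c) * Sf f R n + (-(2 * a / c)) * Sf gf R n := Sf_lin f gf _ _ R n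
    rw [h1, Sf_gf]
    have hc0 : 0 < c := hab
    apply propext
    have e1 : (lam - 2 * a) / c * n + (2 * a / c) * ((Tn^[τ R n] n : ℕ) : ℝ)
        - ((1 / c) * Sf f R n + (-(2 * a / c)) * (n - ((Tn^[τ R n] n : ℕ) : ℝ)))
        = (lam * n - Sf f R n) / c := by
      field_simp; ring
    constructor
    · intro h2
      have : 0 ≤ (lam * n - Sf f R n) / c := div_nonneg (by linarith) hc0.le
      linarith
    · intro h2
      have h3 : 0 ≤ (lam * n - Sf f R n) / c := by linarith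
      have h4 : 0 ≤ lam * n - Sf f R n := by
        by_contra hneg
        push Not at hneg
        have := div_neg_of_neg_of_pos hneg hc0
        linarith
      linarith
  rw [e]
  exact key

/-- the degenerate case -/
theorem deg_law {f : ℕ → ℝ} (hab : a + b = 0)
    (hf : Tendsto (fun m : ℕ => f m / m - cw a b m) atTop (𝓝 0))
    {P R : ℕ → Prop} (hR : Dn R 0)
    (hPR : ∀ n, 1 ≤ n → P n → ∃ k, R (Tn^[k] n)) {ε : ℝ} (hε : 0 < ε) :
    Dn (fun n => P n ∧ ε * n < |Sf f R n - 2 * a * n|) 0 := by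
  classical
  have hb : b = -a := by linarith
  set h : ℕ → ℝ := fun m => 1 * f m + (-(2 * a)) * gf m with hh
  have hs : Tendsto (fun m : ℕ => h m / m - cw 0 0 m) atTop (𝓝 0) := by
    have h1 := (hf.const_mul 1).add (gf_slopes.const_mul (-(2 * a)))
    rw [mul_zero, mul_zero, add_zero] at h1
    refine h1.congr fun m => ?_
    rw [hh]
    simp only
    unfold cw
    rw [hb]
    rcases Nat.mod_two_eq_zero_or_one m with h' | h'
    · rw [if_pos h', if_pos h', if_pos h']; ring
    · rw [if_neg (by omega), if_neg (by omega), if_neg (by omega)]; ring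
  have hw : ∀ K n : ℕ, ws 0 0 K n = 0 := by
    intro K n
    unfold ws cw
    simp
  have h1 : Dn (fun n => P n ∧ ε / 2 * n < |Sf h R n|) 0 := by
    rw [zd_iff]
    intro ε' hε'
    obtain ⟨K0, hK0⟩ := compare hs hR hPR (η := ε / 2) (ε := ε') (by positivity) hε'
    filter_upwards [hK0 K0 le_rfl] with N hN
    refine le_trans (cnt_mono N fun n _ _ hp => ?_) hN
    refine ⟨hp.1, ?_⟩
    rw [hw, mul_zero, sub_zero]; exact hp.2
  have h2 : Dn (fun n => P n ∧ ε / (2 * (|2 * a| + 1)) * n < ((Tn^[τ R n] n : ℕ) : ℝ)) 0 :=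
    end_small hR hPR (by positivity)
  refine zd_or h1 h2 fun n hn hp => ?_
  by_contra hcon
  push Not at hcon
  obtain ⟨c1, c2⟩ := hcon
  have c1 := c1 hp.1
  have c2 := c2 hp.1
  have e : Sf f R n - 2 * a * n = Sf h R n + (-(2 * a)) * ((Tn^[τ R n] n : ℕ) : ℝ) := by
    have h3 : Sf h R n = 1 * Sf f R n + (-(2 * a)) * Sf gf R n := Sf_lin f gf _ _ R n
    rw [h3, Sf_gf]; ring
  have hT : (0 : ℝ) ≤ ((Tn^[τ R n] n : ℕ) : ℝ) := Nat.cast_nonneg _
  have h3 : |Sf f R n - 2 * a * n| ≤ |Sf h R n| + |2 * a| * ((Tn^[τ R n] n : ℕ) : ℝ) := by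
    rw [e]
    refine (abs_add_le _ _).trans ?_
    rw [abs_mul, abs_neg, abs_of_nonneg hT]
  have h4 : |2 * a| * ((Tn^[τ R n] n : ℕ) : ℝ) ≤ ε / 2 * n := by
    have hpos : 0 < |2 * a| + 1 := by positivity
    have hnR : (0 : ℝ) ≤ n := Nat.cast_nonneg n
    calc |2 * a| * ((Tn^[τ R n] n : ℕ) : ℝ) ≤ (|2 * a| + 1) * (ε / (2 * (|2 * a| + 1)) * n) :=
          mul_le_mul (by linarith) c2 hT hpos.le
      _ = ε / 2 * n := by field_simp
  linarith [hp.2]

/-- the periodic points have density zero -/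
theorem per_zd : Dn (fun n => ∃ p, 1 ≤ p ∧ Tn^[p] n = n) 0 := by
  refine zd_mono (late Bdd_inv (fun n h => h)) fun n hn hp => ?_
  obtain ⟨p, hp1, hp2⟩ := hp
  have hk : ∀ m : ℕ, Tn^[p * m] n = n := by
    intro m
    induction m with
    | zero => simp
    | succ m ih => rw [Nat.mul_succ, Function.iterate_add_apply, hp2, ih]
  constructor
  · refine ⟨(range p).sup (fun i => Tn^[i] n), fun k => ?_⟩
    have h1 : Tn^[k] n = Tn^[k % p] n := by
      conv_lhs => rw [← Nat.mod_add_div k p, Function.iterate_add_apply, hk]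
    rw [h1]
    exact Finset.le_sup (f := fun i => Tn^[i] n) (mem_range.2 (Nat.mod_lt _ hp1))
  · refine ⟨p * n, ?_, ?_⟩
    · calc n < 2 ^ n := Nat.lt_two_pow_self
        _ ≤ 2 ^ (p * n) := Nat.pow_le_pow_right (by norm_num) (Nat.le_mul_of_pos_left n hp1)
    · rw [hk]

/-! ### words -/

/-- the sum of a word -/
noncomputable def wsum {K : ℕ} (w : Fin K → Fin 2) : ℝ :=
  ∑ k, (if w k = 0 then 0 else 1) * ∏ i, (if i < k then (if w i = 0 then (1 / 2 : ℝ) else 3 / 2) else 1)

theorem wsum_cons {K : ℕ} (c : Fin 2) (w : Fin K → Fin 2) :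
    wsum (Fin.cons c w : Fin (K + 1) → Fin 2)
      = (if c = 0 then 0 else 1) + (if c = 0 then (1 / 2 : ℝ) else 3 / 2) * wsum w := by
  unfold wsum
  rw [Fin.sum_univ_succ, mul_sum]
  congr 1
  · simp
  · apply sum_congr rfl
    intro k _
    rw [Fin.prod_univ_succ]
    simp only [Fin.cons_succ, Fin.cons_zero, Fin.succ_pos, if_true, Fin.succ_lt_succ_iff]
    ring

theorem word_count (K : ℕ) : ∀ y : ℝ,
    ({w : Fin K → Fin 2 | wsum w ≤ y}.ncard : ℝ) = (1 - Hk 0 1 K y) * 2 ^ K := by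
  classical
  induction K with
  | zero =>
    intro y
    unfold Hk
    by_cases h : y < 0
    · have : {w : Fin 0 → Fin 2 | wsum w ≤ y} = ∅ := by
        ext w
        simp [wsum, h]
      rw [this, if_pos h]; simp
    · have : {w : Fin 0 → Fin 2 | wsum w ≤ y} = Set.univ := by
        ext w
        simp [wsum, not_lt.1 h]
      rw [this, if_neg h, Set.ncard_univ]; simp
  | succ K ih =>
    intro y
    have h1 : {w : Fin (K + 1) → Fin 2 | wsum w ≤ y}
        = (fun w : Fin K → Fin 2 => (Fin.cons 0 w : Fin (K + 1) → Fin 2)) '' {w | wsum w ≤ 2 * (y - 0)}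
        ∪ (fun w : Fin K → Fin 2 => (Fin.cons 1 w : Fin (K + 1) → Fin 2)) '' {w | wsum w ≤ 2 * (y - 1) / 3} := by
      ext w
      constructor
      · intro hw
        have hw' : wsum w ≤ y := hw
        rw [← Fin.cons_self_tail w, wsum_cons] at hw'
        have hcase : w 0 = 0 ∨ w 0 = 1 := by
          have := (w 0).isLt
          rcases Nat.lt_or_ge (w 0 : ℕ) 1 with h | h
          · left; apply Fin.ext; simp; omega
          · right; apply Fin.ext; simp; omega
        rcases hcase with h | h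
        · left
          refine ⟨Fin.tail w, ?_, ?_⟩
          · rw [h] at hw'
            simp only [if_true] at hw'
            show wsum (Fin.tail w) ≤ 2 * (y - 0)
            linarith
          · show (Fin.cons 0 (Fin.tail w) : Fin (K + 1) → Fin 2) = w
            rw [← h]; exact Fin.cons_self_tail w
        · right
          refine ⟨Fin.tail w, ?_, ?_⟩
          · rw [h] at hw'
            simp only [one_ne_zero, if_false] at hw'
            show wsum (Fin.tail w) ≤ 2 * (y - 1) / 3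
            linarith
          · show (Fin.cons 1 (Fin.tail w) : Fin (K + 1) → Fin 2) = w
            rw [← h]; exact Fin.cons_self_tail w
      · rintro (⟨v, hv, rfl⟩ | ⟨v, hv, rfl⟩)
        · show wsum _ ≤ y
          have hv' : wsum v ≤ 2 * (y - 0) := hv
          rw [wsum_cons]; simp only [if_true]; linarith
        · show wsum _ ≤ y
          have hv' : wsum v ≤ 2 * (y - 1) / 3 := hv
          rw [wsum_cons]; simp only [one_ne_zero, if_false]; linarith
    rw [h1, Set.ncard_union_eq, Set.ncard_image_of_injective, Set.ncard_image_of_injective]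
    · push_cast
      rw [ih, ih, Hk_succ, pow_succ]
      ring
    · intro u v huv
      exact (Fin.cons_injective2 huv).2
    · intro u v huv
      exact (Fin.cons_injective2 huv).2
    · rw [Set.disjoint_left]
      rintro _ ⟨u, _, rfl⟩ ⟨v, _, hv⟩
      have := congrFun hv 0
      simp at this

end Pool.Agent.U931.TS
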